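import Pool.Agent.H98.RFZ.Targets2b
import Pool.Agent.H67.RFZ.LB
import Pool.Agent.H11.RFC.FAC

/-!
# Without exponential decay `L m(L)` tends to infinity (temperature zero)
-/

set_option autoImplicit false

noncomputable section

open MeasureTheory ProbabilityTheory Filter Topology

namespace Pool.Agent.H98.RFZ.Inv

open Pool.Agent.H98.RFC Pool.Agent.H98.RFZ Pool.Agent.H67.RFZ

/-- A function on `{0,…,k}` with steps at most `R` that moves by at least `w` takes many values. -/
theorem many (R : ℕ) (k : ℕ) (f : ℕ → ℤ) (hf : ∀ i, i < k → |f (i + 1) - f i| ≤ R) (w : ℕ)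
    (hw : (w : ℤ) ≤ |f k - f 0|) (S : Finset ℤ) (hS : ∀ i, i ≤ k → f i ∈ S) :
    w ≤ R * S.card := by
  -- for `f 0 ≤ f k`
  have key : ∀ (g : ℕ → ℤ), (∀ i, i < k → |g (i + 1) - g i| ≤ R) → (w : ℤ) ≤ g k - g 0 →
      ∀ S : Finset ℤ, (∀ i, i ≤ k → g i ∈ S) → w ≤ R * S.card := by
    intro g hg hw S hS
    by_contra hc
    push Not at hc
    -- the union of `[s, s + R)` over `S` covers `[g 0, g k)`
    have hcov : Finset.Ico (g 0) (g 0 + w) ⊆ S.biUnion (fun s => Finset.Ico s (s + R)) := by
      intro t ht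
      rw [Finset.mem_Ico] at ht
      -- the last index with `g i ≤ t`
      have hex : ∃ i, i < k ∧ g i ≤ t ∧ t < g (i + 1) := by
        by_contra hno
        push Not at hno
        have hall : ∀ i, i ≤ k → g i ≤ t := by
          intro i
          induction i with
          | zero => intro _; exact ht.1
          | succ i ih =>
            intro hi
            exact hno i (by omega) (ih (by omega))
        have := hall k le_rfl
        linarith
      obtain ⟨i, hi, h1, h2⟩ := hex
      rw [Finset.mem_biUnion]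
      refine ⟨g i, hS i (by omega), ?_⟩
      rw [Finset.mem_Ico]
      have h3 := (abs_le.1 (hg i hi)).2
      exact ⟨h1, by linarith⟩
    have h1 := Finset.card_le_card hcov
    have h2 : (S.biUnion (fun s => Finset.Ico s (s + R))).card ≤ S.card * R := by
      refine Finset.card_biUnion_le_card_mul _ _ _ fun s _ => ?_
      rw [Int.card_Ico]
      omega
    rw [Int.card_Ico] at h1
    have h3 : (g 0 + w - g 0).toNat = w := by omega
    rw [h3] at h1
    have h4 := h1.trans h2
    rw [mul_comm] at h4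
    omega
  rcases le_total (f 0) (f k) with h | h
  · refine key f hf ?_ S hS
    rwa [abs_of_nonneg (by linarith)] at hw
  · have h5 := key (fun i => - f i) (fun i hi => by
      have := hf i hi
      have e : - f (i + 1) - - f i = -(f (i + 1) - f i) := by ring
      rw [e, abs_neg]
      exact this) (by
        rw [abs_of_nonpos (by linarith)] at hw
        linarith) (S.image (fun z => -z)) (fun i hi => Finset.mem_image_of_mem _ (hS i hi))
    rwa [Finset.card_image_of_injective _ neg_injective] at h5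

/-- A crossed tube contains many sites of the disagreement set. -/
theorem crs_card (R : ℕ) (J : Site → ℝ) (hJ : IsCoupling R J) (h : Site → ℝ) (M K' u : ℕ)
    (v : Site) (hM : 10 ≤ M) (hv : InVM M v) (hc : Crs R J h u v K' 0) (T : Finset Site)
    (hT : ∀ x, nearSeg 0 (0 + sm u v) x (2 * u) → x ∈ T) :
    u ≤ R * (Ds R J h (tube 0 (0 + sm u v) (K' * u)) ∩ T).card := by
  obtain ⟨k, x, ⟨hp1, hp2⟩, hx, h0, hk⟩ := hc
  -- end points
  have hb : ∀ (z w : Site) (r : ℕ), w ∈ eb z r → |w.1 - z.1| ≤ r ∧ |w.2 - z.2| ≤ r := by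
    intro z w r hw
    unfold eb at hw
    have h1 := (Finset.mem_filter.1 hw).1
    unfold bx at h1
    rw [Finset.mem_product, Finset.mem_Icc, Finset.mem_Icc] at h1
    obtain ⟨⟨a, b⟩, c, d⟩ := h1
    exact ⟨abs_le.2 ⟨by linarith, by linarith⟩, abs_le.2 ⟨by linarith, by linarith⟩⟩
  obtain ⟨h01, h02⟩ := hb _ _ _ h0
  obtain ⟨hk1, hk2⟩ := hb _ _ _ hk
  have hstep : ∀ i, i < k → x (i + 1) - x i ∈ box R := by
    intro i hi
    by_contra hc
    exact absurd (hJ.range _ hc) (hp2 i hi).ne'
  have hM' : (10 : ℤ) ≤ M := by exact_mod_cast hM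
  -- one coordinate is large
  have hlarge : (5 : ℤ) ≤ |v.1| ∨ (5 : ℤ) ≤ |v.2| := by
    by_contra hno
    push Not at hno
    obtain ⟨h1, -⟩ := hv
    unfold nsq at h1
    have e1 : v.1 ^ 2 ≤ 16 := by
      have := abs_lt.1 hno.1
      nlinarith [this.1, this.2]
    have e2 : v.2 ^ 2 ≤ 16 := by
      have := abs_lt.1 hno.2
      nlinarith [this.1, this.2]
    nlinarith
  set D := Ds R J h (tube 0 (0 + sm u v) (K' * u)) ∩ T with hD
  have hmem : ∀ i, i ≤ k → x i ∈ D := by
    intro i hi
    exact Finset.mem_inter.2 ⟨hp1 i hi, hT _ (hx i hi)⟩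
  have hu0 : (0 : ℤ) ≤ u := by positivity
  have fin : ∀ (c d0 dk : ℤ), (5 : ℤ) ≤ |c| → |d0| ≤ (2 * u : ℕ) → |dk - u * c| ≤ (2 * u : ℕ) →
      (u : ℤ) ≤ |dk - d0| := by
    intro c d0 dk hc h1 h2
    push_cast at h1 h2
    have h3 : (u : ℤ) * 5 ≤ |u * c| := by
      rw [abs_mul, abs_of_nonneg hu0]
      exact mul_le_mul_of_nonneg_left hc hu0
    have h4 : |u * c| ≤ |dk - d0| + |d0| + |dk - u * c| := by
      have e : (u : ℤ) * c = (dk - d0) + d0 - (dk - u * c) := by ring
      calc |u * c| = |(dk - d0) + d0 - (dk - u * c)| := by rw [← e]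
        _ ≤ |(dk - d0) + d0| + |dk - u * c| := abs_sub _ _
        _ ≤ |dk - d0| + |d0| + |dk - u * c| := by
            have := abs_add_le (dk - d0) d0
            linarith
    linarith
  rcases hlarge with hl | hl
  · have h5 := many R k (fun i => (x i).1) (fun i hi => by
      have h6 := hstep i hi
      rw [Pool.Agent.H11.RFC.mem_box] at h6
      exact abs_le.2 ⟨h6.1.1, h6.1.2⟩) u (by
        refine fin v.1 (x 0).1 (x k).1 hl ?_ ?_
        · simpa using h01
        · have e : (0 + sm u v).1 = (u : ℤ) * v.1 := by simp [sm]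
          rw [e] at hk1
          exact hk1) (D.image Prod.fst) (fun i hi => Finset.mem_image_of_mem _ (hmem i hi))
    exact h5.trans (Nat.mul_le_mul_left _ Finset.card_image_le)
  · have h5 := many R k (fun i => (x i).2) (fun i hi => by
      have h6 := hstep i hi
      rw [Pool.Agent.H11.RFC.mem_box] at h6
      exact abs_le.2 ⟨h6.2.1, h6.2.2⟩) u (by
        refine fin v.2 (x 0).2 (x k).2 hl ?_ ?_
        · simpa using h02
        · have e : (0 + sm u v).2 = (u : ℤ) * v.2 := by simp [sm]
          rw [e] at hk2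
          exact hk2) (D.image Prod.snd) (fun i hi => Finset.mem_image_of_mem _ (hmem i hi))
    exact h5.trans (Nat.mul_le_mul_left _ Finset.card_image_le)

end Pool.Agent.H98.RFZ.Inv
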