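import Pool.Agent.H98.RFZ.Targets

/-!
# Board `rfz_modules`, part 2 (tubes, tortuosity): definitions and targets

Paper: `/team-store/RFZ_PAPER2.md`.
-/

set_option autoImplicit false

noncomputable section

open MeasureTheory ProbabilityTheory Filter Topology

namespace Pool.Agent.H98.RFZ

open Pool.Agent.H98.RFC

/-! ## Definitions -/

/-- `N` is a symmetric subadditive function between `α |x|` and `β |x|`. -/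
def IsN (N : Site → ℝ) (α β : ℝ) : Prop :=
  (∀ x y, N (x + y) ≤ N x + N y) ∧ (∀ x, N (-x) = N x) ∧
    ∀ x, α * nrm x ≤ N x ∧ N x ≤ β * nrm x

/-- The quadratic norms used in the proof. -/
def Nq (p : Site) (a b : ℝ) (x : Site) : ℝ :=
  Real.sqrt (a * (gdot p x : ℝ) ^ 2 + b * (fdet p x : ℝ) ^ 2) / nrm p

/-- The cell around `z` at scale `v` is bad for `N`: a path of the local disagreement set with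
displacement at least `v` has fewer steps than `N` of its displacement. -/
def BadN (R : ℕ) (J h : Site → ℝ) (N : Site → ℝ) (v : ℕ) (z : Site) : Prop :=
  ∃ (k : ℕ) (x : ℕ → Site), IsPath J (Ds R J h (eb z (10 * v))) k x ∧
    (∀ i, i ≤ k → x i ∈ eb z (8 * v)) ∧ x 0 ∈ eb z (2 * v) ∧
    (v : ℤ) ^ 2 ≤ nsq (x k - x 0) ∧ (k : ℝ) < N (x k - x 0)

/-- Probability that a cell is bad. -/
def pB (R : ℕ) (J : Site → ℝ) (ε : ℝ) (N : Site → ℝ) (v : ℕ) : ℝ :=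
  (gam {η | BadN R J (fun x => ε * η x) N v 0}).toReal

/-- `x` is at distance at most `r` from the segment `[a, b]`. -/
def nearSeg (a b x : Site) (r : ℝ) : Prop :=
  ∃ t : ℝ, 0 ≤ t ∧ t ≤ 1 ∧
    ((x.1 : ℝ) - ((a.1 : ℝ) + t * ((b.1 : ℝ) - (a.1 : ℝ)))) ^ 2 +
      ((x.2 : ℝ) - ((a.2 : ℝ) + t * ((b.2 : ℝ) - (a.2 : ℝ)))) ^ 2 ≤ r ^ 2

open Classical in
/-- The sites at distance at most `r` from the segment `[a, b]`. -/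
def tube (a b : Site) (r : ℕ) : Finset Site :=
  (bx a (r + (b.1 - a.1).natAbs + (b.2 - a.2).natAbs + 1)).filter
    (fun x => nearSeg a b x r)

/-- The multiple `u v`. -/
def sm (u : ℕ) (v : Site) : Site := ((u : ℤ) * v.1, (u : ℤ) * v.2)

/-- The tube from `y` to `y + u v` of width `2u` is crossed by the disagreement set of the tube
enlarged to width `K' u`. -/
def Crs (R : ℕ) (J h : Site → ℝ) (u : ℕ) (v : Site) (K' : ℕ) (y : Site) : Prop :=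
  ∃ (k : ℕ) (x : ℕ → Site), IsPath J (Ds R J h (tube y (y + sm u v) (K' * u))) k x ∧
    (∀ i, i ≤ k → nearSeg y (y + sm u v) (x i) (2 * u)) ∧
    x 0 ∈ eb y (2 * u) ∧ x k ∈ eb (y + sm u v) (2 * u)

/-- Probability that a tube is crossed. -/
def pC (R : ℕ) (J : Site → ℝ) (ε : ℝ) (u : ℕ) (v : Site) (K' : ℕ) : ℝ :=
  (gam {η | Crs R J (fun x => ε * η x) u v K' 0}).toReal

/-- Tube vectors: `M - 2 ≤ |v| ≤ M + 2`. -/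
def InVM (M : ℕ) (v : Site) : Prop :=
  ((M : ℤ) - 2) ^ 2 ≤ nsq v ∧ nsq v ≤ ((M : ℤ) + 2) ^ 2

/-- At scale `u` all tubes that are not almost parallel to `p` are hard to cross. -/
def Hard (R : ℕ) (J : Site → ℝ) (ε : ℝ) (p : Site) (φ : ℝ) (M K' : ℕ) (δ : ℝ) (u : ℕ) : Prop :=
  ∀ v : Site, InVM M v → φ * |(gdot p v : ℝ)| ≤ |(fdet p v : ℝ)| → pC R J ε u v K' ≤ 1 - δ

/-! ## Targets -/

/-- Local events: measurability, locality, translation invariance. -/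
def B_MEA : Prop := ∀ (R : ℕ) (J : Site → ℝ), IsCoupling R J → ∀ (ε : ℝ) (N : Site → ℝ) (v : ℕ)
  (z : Site),
  MeasurableSet {η : Site → ℝ | BadN R J (fun x => ε * η x) N v z} ∧
  (∀ η η' : Site → ℝ, (∀ x ∈ eb z (10 * v), η x = η' x) →
    BadN R J (fun x => ε * η x) N v z → BadN R J (fun x => ε * η' x) N v z) ∧
  (gam {η | BadN R J (fun x => ε * η x) N v z}).toReal = pB R J ε N v

/-- The same for tube crossings. -/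
def C_MEA : Prop := ∀ (R : ℕ) (J : Site → ℝ), IsCoupling R J → ∀ (ε : ℝ) (u : ℕ) (v : Site)
  (K' : ℕ) (y : Site),
  MeasurableSet {η : Site → ℝ | Crs R J (fun x => ε * η x) u v K' y} ∧
  (∀ η η' : Site → ℝ, (∀ x ∈ tube y (y + sm u v) (K' * u), η x = η' x) →
    Crs R J (fun x => ε * η x) u v K' y → Crs R J (fun x => ε * η' x) u v K' y) ∧
  (gam {η | Crs R J (fun x => ε * η x) u v K' y}).toReal = pC R J ε u v K'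

/-- `Nq` is a norm. -/
def B_NQ : Prop := ∀ (p : Site) (a b α β : ℝ), p ≠ 0 → 0 < α → 0 < β →
  α ^ 2 ≤ a → a ≤ β ^ 2 → α ^ 2 ≤ b → b ≤ β ^ 2 →
    IsN (Nq p a b) α β ∧
    (∀ x, Nq p a a x = Real.sqrt a * nrm x) ∧
    (∀ x, Real.sqrt b * |(fdet p x : ℝ)| / nrm p ≤ Nq p a b x)

/-- No bad cells for the trivial norm. -/
def B_BASE : Prop := ∀ (R : ℕ) (J : Site → ℝ), IsCoupling R J → 1 ≤ R → ∀ (h : Site → ℝ)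
  (p : Site), p ≠ 0 → ∀ (v : ℕ) (z : Site),
    ¬ BadN R J h (Nq p (1 / (2 * (R : ℝ) ^ 2)) (1 / (2 * (R : ℝ) ^ 2))) v z

/-- Scaling up, deterministic part. -/
def B_A1 : Prop := ∀ (R : ℕ) (J : Site → ℝ), IsCoupling R J → ∀ (h : Site → ℝ) (N : Site → ℝ)
  (α β c : ℝ), 0 < α → α ≤ β → IsN N α β → ∀ v w : ℕ, 20 * R + 20 ≤ v → 100 * v ≤ w →
  0 ≤ c → c ≤ 1 - 100 * (β / α) * ((v : ℝ) / (w : ℝ)) →
  BadN R J h (fun x => c * N x) w 0 →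
  ∃ y₁ y₂ : Site, sm v y₁ ∈ eb 0 (9 * w) ∧ sm v y₂ ∈ eb 0 (9 * w) ∧
    (20 * (v : ℤ)) ^ 2 < nsq (sm v y₁ - sm v y₂) ∧
    BadN R J h N v (sm v y₁) ∧ BadN R J h N v (sm v y₂)

/-- Scaling up, probability. -/
def B_A2 : Prop := ∀ (R : ℕ) (J : Site → ℝ), IsCoupling R J → ∀ (ε : ℝ) (N : Site → ℝ)
  (α β c : ℝ), 0 < α → α ≤ β → IsN N α β → ∀ v w : ℕ, 20 * R + 20 ≤ v → 100 * v ≤ w →
  0 ≤ c → c ≤ 1 - 100 * (β / α) * ((v : ℝ) / (w : ℝ)) →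
  pB R J ε (fun x => c * N x) w ≤ (20 * (w : ℝ) / (v : ℝ)) ^ 4 * (pB R J ε N v) ^ 2

/-- Real analysis: iteration of the scaling up. -/
def B_A3 : Prop := ∀ (ρ θ : ℝ), 1 ≤ ρ → 0 < θ → θ < 1 → ∀ (P : ℝ → ℕ → ℝ) (v₀ : ℕ), 1 ≤ v₀ →
  (∀ c v, 0 ≤ P c v) → (∀ c c' v, 0 ≤ c → c ≤ c' → P c v ≤ P c' v) →
  (∀ (c c' : ℝ) (v w : ℕ), v₀ ≤ v → 100 * v ≤ w → 0 < c → 0 ≤ c' →
    c' ≤ c * (1 - 100 * ρ * ((v : ℝ) / (w : ℝ))) →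
    P c' w ≤ (20 * (w : ℝ) / (v : ℝ)) ^ 4 * (P c v) ^ 2) →
  ∀ v₁ : ℕ, v₀ ≤ v₁ → P 1 v₁ ≤ (θ / (10 ^ 5 * ρ)) ^ 4 →
  ∃ w₀ : ℕ, ∀ w : ℕ, w₀ ≤ w → P (1 - θ) w ≤ ((w : ℝ) ^ 20)⁻¹

/-- Scaling up, summary. -/
def B_A : Prop := ∀ (R : ℕ) (J : Site → ℝ), IsCoupling R J → ∀ (ε : ℝ) (N : Site → ℝ)
  (α β θ : ℝ), 0 < α → α ≤ β → IsN N α β → 0 < θ → θ < 1 →
  ∀ v : ℕ, 20 * R + 20 ≤ v → pB R J ε N v ≤ (θ / (10 ^ 5 * (β / α))) ^ 4 →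
  ∃ w₀ : ℕ, ∀ w : ℕ, w₀ ≤ w → pB R J ε (fun x => (1 - θ) * N x) w ≤ ((w : ℝ) ^ 20)⁻¹

/-- A bad cell for a slightly larger norm without bad cells at a smaller scale comes from a path
that is almost straight and not almost parallel to `p`. -/
def B_B1 : Prop := ∀ (R : ℕ) (J : Site → ℝ), IsCoupling R J → ∀ (h : Site → ℝ) (p : Site)
  (a b a' b' α β θ κ φ : ℝ) (A A' u v : ℕ), p ≠ 0 → 0 < α → α ≤ β →
  α ^ 2 ≤ a → a ≤ β ^ 2 → α ^ 2 ≤ b → b ≤ β ^ 2 → 0 ≤ a' → 0 ≤ b' → 0 < θ → θ < 1 → 0 < κ →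
  κ < 1 → 0 < φ →
  (∀ x : Site, |(fdet p x : ℝ)| < φ * |(gdot p x : ℝ)| → Nq p a' b' x ≤ (1 - θ) * Nq p a b x) →
  (∀ x : Site, Nq p a' b' x ≤ (1 + κ) * Nq p a b x) →
  8 ≤ A → 8 ≤ A' → β / α ≤ A * A' * θ → β / α ≤ A * A' * κ → κ ≤ (α / (200 * A' * β)) ^ 2 →
  A * v ≤ u → 20 * R + 20 ≤ v →
  (∀ y : Site, sm v y ∈ eb 0 (9 * (A' * u)) → ¬ BadN R J h (Nq p a b) v (sm v y)) →
  ∀ (k : ℕ) (x : ℕ → Site), IsPath J (Ds R J h (eb 0 (10 * (A' * u)))) k x →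
    (∀ i, i ≤ k → x i ∈ eb 0 (8 * (A' * u))) → x 0 ∈ eb 0 (2 * (A' * u)) →
    ((A' * u : ℕ) : ℤ) ^ 2 ≤ nsq (x k - x 0) → (k : ℝ) < Nq p a' b' (x k - x 0) →
    φ * |(gdot p (x k - x 0) : ℝ)| ≤ |(fdet p (x k - x 0) : ℝ)| ∧
    ∀ i, i ≤ k → nearSeg (x 0) (x k) (x i) ((u : ℝ) / 2)

/-- An almost straight path crosses many tubes that depend only on the cells of its endpoints. -/
def B_B2 : Prop := ∀ (R : ℕ) (J : Site → ℝ), IsCoupling R J → ∀ (φ : ℝ) (p : Site)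
  (M K' n A' u : ℕ), 0 < φ → φ ≤ 1 → p ≠ 0 → 100 / φ ≤ (M : ℝ) → 10 ≤ M →
  n * (M + 2 * K' + 10) + K' + 100 ≤ A' → 200 * R + 200 ≤ u →
  ∀ P₀ P₁ : Site, P₀ ∈ box (9 * A') → P₁ ∈ box (9 * A') →
    ((A' : ℤ) - 2) ^ 2 ≤ nsq (P₁ - P₀) →
  ∃ y v : Fin n → Site, (∀ m, InVM M (v m)) ∧
    (∀ m m', m ≠ m' → Disjoint (tube (y m) (y m + sm u (v m)) (K' * u))
      (tube (y m') (y m' + sm u (v m')) (K' * u))) ∧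
    ∀ (h : Site → ℝ) (k : ℕ) (x : ℕ → Site),
      IsPath J (Ds R J h (eb 0 (10 * (A' * u)))) k x →
      (∀ i, i ≤ k → x i ∈ eb 0 (8 * (A' * u))) →
      ((A' * u : ℕ) : ℤ) ^ 2 ≤ nsq (x k - x 0) →
      2 * nsq (x 0 - sm u P₀) ≤ (u : ℤ) ^ 2 → 2 * nsq (x k - sm u P₁) ≤ (u : ℤ) ^ 2 →
      (∀ i, i ≤ k → nearSeg (x 0) (x k) (x i) ((u : ℝ) / 2)) →
      2 * φ * |(gdot p (x k - x 0) : ℝ)| ≤ |(fdet p (x k - x 0) : ℝ)| →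
      (∀ m, φ * |(gdot p (v m) : ℝ)| ≤ |(fdet p (v m) : ℝ)|) ∧
      ∀ m, Crs R J h u (v m) K' (y m)

/-- Gain at a hard scale, probability. -/
def B_B3 : Prop := ∀ (R : ℕ) (J : Site → ℝ), IsCoupling R J → ∀ (ε : ℝ) (p : Site)
  (a b a' b' α β θ κ φ δ : ℝ) (A A' M K' n u v : ℕ), p ≠ 0 → 0 < α → α ≤ β →
  α ^ 2 ≤ a → a ≤ β ^ 2 → α ^ 2 ≤ b → b ≤ β ^ 2 → 0 ≤ a' → 0 ≤ b' → 0 < θ → θ < 1 → 0 < κ →
  κ < 1 → 0 < φ → φ ≤ 1 → 0 < δ → δ < 1 →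
  (∀ x : Site, |(fdet p x : ℝ)| < 2 * φ * |(gdot p x : ℝ)| →
    Nq p a' b' x ≤ (1 - θ) * Nq p a b x) →
  (∀ x : Site, Nq p a' b' x ≤ (1 + κ) * Nq p a b x) →
  8 ≤ A → β / α ≤ A * A' * θ → β / α ≤ A * A' * κ → κ ≤ (α / (200 * A' * β)) ^ 2 →
  100 / φ ≤ (M : ℝ) → 10 ≤ M → n * (M + 2 * K' + 10) + K' + 100 ≤ A' →
  A * v ≤ u → u ≤ 2 * A * v → 200 * R + 200 ≤ v → Hard R J ε p φ M K' δ u →
  pB R J ε (Nq p a' b') (A' * u) ≤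
    (40 * (A : ℝ) * A') ^ 2 * pB R J ε (Nq p a b) v + (20 * (A' : ℝ)) ^ 4 * (1 - δ) ^ n

/-- Choice of parameters. -/
def B_PAR : Prop := ∀ (α β δ G : ℝ) (M K' : ℕ), 0 < α → α ≤ β → 0 < δ → δ < 1 → 1 ≤ G →
  ∃ (κ : ℝ) (A' n : ℕ), 0 < κ ∧ κ < 1 / 2 ∧ 8 ≤ A' ∧
    κ ≤ (α / (200 * A' * β)) ^ 2 ∧ n * (M + 2 * K' + 10) + K' + 100 ≤ A' ∧
    (20 * (A' : ℝ)) ^ 4 * (1 - δ) ^ n ≤ 1 / 2 * (κ / (8 * G) / (10 ^ 6 * (β / α))) ^ 4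

/-- One step of the induction over hard scales. -/
def B_STEP : Prop := ∀ (R : ℕ) (J : Site → ℝ), IsCoupling R J → ∀ (ε : ℝ) (p : Site)
  (α β G φ δ : ℝ) (M K' : ℕ), p ≠ 0 → 0 < α → α ≤ β → 1 ≤ G → 0 < φ → φ ≤ 1 → 0 < δ → δ < 1 →
  (2 * φ) ^ 2 * β ^ 2 * (G + 1) ≤ α ^ 2 / 2 → 100 / φ ≤ (M : ℝ) → 10 ≤ M →
  ∃ κ : ℝ, 0 < κ ∧ κ < 1 / 2 ∧
    ∀ a b : ℝ, α ^ 2 ≤ a → a ≤ β ^ 2 → α ^ 2 ≤ b → b ≤ β ^ 2 →
    (∃ w₀ : ℕ, ∀ w : ℕ, w₀ ≤ w → pB R J ε (Nq p a b) w ≤ ((w : ℝ) ^ 20)⁻¹) →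
    (∀ u₀ : ℕ, ∃ u : ℕ, u₀ ≤ u ∧ Hard R J ε p φ M K' δ u) →
    ∃ w₀ : ℕ, ∀ w : ℕ, w₀ ≤ w →
      pB R J ε (Nq p (a * (1 - 2 * (κ / G))) (b * (1 + κ / 2))) w ≤ ((w : ℝ) ^ 20)⁻¹

/-- Infinitely many hard scales make all paths transversal to `p` long. -/
def B_IND : Prop := ∀ (R : ℕ) (J : Site → ℝ), IsCoupling R J → 1 ≤ R → ∀ (ε l : ℝ), 1 ≤ l →
  ∃ φ : ℝ, 0 < φ ∧ φ ≤ 1 ∧ ∀ (p : Site) (M K' : ℕ) (δ : ℝ), p ≠ 0 → 100 / φ ≤ (M : ℝ) →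
    10 ≤ M → 0 < δ → δ < 1 →
    (∀ u₀ : ℕ, ∃ u : ℕ, u₀ ≤ u ∧ Hard R J ε p φ M K' δ u) →
    ∃ w₀ : ℕ, ∀ w : ℕ, w₀ ≤ w →
      pB R J ε (fun x => l * |(fdet p x : ℝ)| / nrm p) w ≤ ((w : ℝ) ^ 20)⁻¹

/-- Long transversal paths exclude short paths in the annulus. -/
def B_SP : Prop := ∀ (R : ℕ) (J : Site → ℝ), IsCoupling R J → ∀ (ε : ℝ) (p : Site) (K l : ℝ),
  p ≠ 0 → 1 ≤ K → 2 * K ≤ l →
  (∃ w₀ : ℕ, ∀ w : ℕ, w₀ ≤ w →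
    pB R J ε (fun x => l * |(fdet p x : ℝ)| / nrm p) w ≤ ((w : ℝ) ^ 20)⁻¹) →
  ∃ w₀ : ℝ, ∀ w : ℝ, w₀ ≤ w →
    (gam {η | SP R J (fun x => ε * η x) p K w}).toReal ≤ (w ^ 5)⁻¹

/-- Structure theorem: without exponential decay there are, at every large scale, two directions
with an angle bounded below in which all tubes are crossed with high probability. -/
def B_STR : Prop := ∀ (R : ℕ) (J : Site → ℝ), IsCoupling R J → ∀ ε : ℝ, 0 < ε →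
  ¬ ExpDecay R J 0 ε → ∃ φ : ℝ, 0 < φ ∧ φ ≤ 1 ∧ ∀ (M K' : ℕ) (δ : ℝ), 100 / φ ≤ (M : ℝ) →
    10 ≤ M → 0 < δ → δ < 1 → ∃ u₀ : ℕ, ∀ u : ℕ, u₀ ≤ u → ∃ v₁ v₂ : Site,
      InVM M v₁ ∧ InVM M v₂ ∧ φ * |(gdot v₁ v₂ : ℝ)| ≤ |(fdet v₁ v₂ : ℝ)| ∧
      1 - δ < pC R J ε u v₁ K' ∧ 1 - δ < pC R J ε u v₂ K'

end Pool.Agent.H98.RFZ
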