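import Pool.Agent.H98.RFZ.Targets2

/-!
# Board `rfz_modules`, part 2: the targets with the condition `2 ≤ K'`

The tube of width `K' u` has to contain the tube of width `2 u` that is crossed. `B_B2k` is
defined in `Pool/Agent/H20/RFZ/B2Mid.lean`.
-/

set_option autoImplicit false

noncomputable section

open MeasureTheory ProbabilityTheory Filter Topology

namespace Pool.Agent.H98.RFZ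

open Pool.Agent.H98.RFC

/-- Gain at a hard scale, probability, for `2 ≤ K'`. -/
def B_B3k : Prop := ∀ (R : ℕ) (J : Site → ℝ), IsCoupling R J → ∀ (ε : ℝ) (p : Site)
  (a b a' b' α β θ κ φ δ : ℝ) (A A' M K' n u v : ℕ), p ≠ 0 → 0 < α → α ≤ β →
  α ^ 2 ≤ a → a ≤ β ^ 2 → α ^ 2 ≤ b → b ≤ β ^ 2 → 0 ≤ a' → 0 ≤ b' → 0 < θ → θ < 1 → 0 < κ →
  κ < 1 → 0 < φ → φ ≤ 1 → 0 < δ → δ < 1 →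
  (∀ x : Site, |(fdet p x : ℝ)| < 2 * φ * |(gdot p x : ℝ)| →
    Nq p a' b' x ≤ (1 - θ) * Nq p a b x) →
  (∀ x : Site, Nq p a' b' x ≤ (1 + κ) * Nq p a b x) →
  8 ≤ A → β / α ≤ A * A' * θ → β / α ≤ A * A' * κ → κ ≤ (α / (200 * A' * β)) ^ 2 →
  100 / φ ≤ (M : ℝ) → 10 ≤ M → 2 ≤ K' → n * (M + 2 * K' + 10) + K' + 100 ≤ A' →
  A * v ≤ u → u ≤ 2 * A * v → 200 * R + 200 ≤ v → Hard R J ε p φ M K' δ u →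
  pB R J ε (Nq p a' b') (A' * u) ≤
    (40 * (A : ℝ) * A') ^ 2 * pB R J ε (Nq p a b) v + (20 * (A' : ℝ)) ^ 4 * (1 - δ) ^ n

/-- One step of the induction over hard scales, for `2 ≤ K'`. -/
def B_STEPk : Prop := ∀ (R : ℕ) (J : Site → ℝ), IsCoupling R J → ∀ (ε : ℝ) (p : Site)
  (α β G φ δ : ℝ) (M K' : ℕ), p ≠ 0 → 0 < α → α ≤ β → 1 ≤ G → 0 < φ → φ ≤ 1 → 0 < δ → δ < 1 →
  (2 * φ) ^ 2 * β ^ 2 * (G + 1) ≤ α ^ 2 / 2 → 100 / φ ≤ (M : ℝ) → 10 ≤ M → 2 ≤ K' →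
  ∃ κ : ℝ, 0 < κ ∧ κ < 1 / 2 ∧
    ∀ a b : ℝ, α ^ 2 ≤ a → a ≤ β ^ 2 → α ^ 2 ≤ b → b ≤ β ^ 2 →
    (∃ w₀ : ℕ, ∀ w : ℕ, w₀ ≤ w → pB R J ε (Nq p a b) w ≤ ((w : ℝ) ^ 20)⁻¹) →
    (∀ u₀ : ℕ, ∃ u : ℕ, u₀ ≤ u ∧ Hard R J ε p φ M K' δ u) →
    ∃ w₀ : ℕ, ∀ w : ℕ, w₀ ≤ w →
      pB R J ε (Nq p (a * (1 - 2 * (κ / G))) (b * (1 + κ / 2))) w ≤ ((w : ℝ) ^ 20)⁻¹

/-- Infinitely many hard scales make all paths transversal to `p` long, for `2 ≤ K'`. -/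
def B_INDk : Prop := ∀ (R : ℕ) (J : Site → ℝ), IsCoupling R J → 1 ≤ R → ∀ (ε l : ℝ), 1 ≤ l →
  ∃ φ : ℝ, 0 < φ ∧ φ ≤ 1 ∧ ∀ (p : Site) (M K' : ℕ) (δ : ℝ), p ≠ 0 → 100 / φ ≤ (M : ℝ) →
    10 ≤ M → 2 ≤ K' → 0 < δ → δ < 1 →
    (∀ u₀ : ℕ, ∃ u : ℕ, u₀ ≤ u ∧ Hard R J ε p φ M K' δ u) →
    ∃ w₀ : ℕ, ∀ w : ℕ, w₀ ≤ w →
      pB R J ε (fun x => l * |(fdet p x : ℝ)| / nrm p) w ≤ ((w : ℝ) ^ 20)⁻¹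

/-- Structure theorem, for `2 ≤ K'`. -/
def B_STRk : Prop := ∀ (R : ℕ) (J : Site → ℝ), IsCoupling R J → ∀ ε : ℝ, 0 < ε →
  ¬ ExpDecay R J 0 ε → ∃ φ : ℝ, 0 < φ ∧ φ ≤ 1 ∧ ∀ (M K' : ℕ) (δ : ℝ), 100 / φ ≤ (M : ℝ) →
    10 ≤ M → 2 ≤ K' → 0 < δ → δ < 1 → ∃ u₀ : ℕ, ∀ u : ℕ, u₀ ≤ u → ∃ v₁ v₂ : Site,
      InVM M v₁ ∧ InVM M v₂ ∧ φ * |(gdot v₁ v₂ : ℝ)| ≤ |(fdet v₁ v₂ : ℝ)| ∧
      1 - δ < pC R J ε u v₁ K' ∧ 1 - δ < pC R J ε u v₂ K'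

end Pool.Agent.H98.RFZ
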