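import Pool.Agent.H98.RFZ.Targets2

/-!
# Board `rfz_modules`, part 3 (planar couplings): definitions and targets

Paper: `/team-store/RFZ_PAPER3.md`.
-/

set_option autoImplicit false

noncomputable section

open MeasureTheory ProbabilityTheory Filter Topology

namespace Pool.Agent.H98.RFZ

open Pool.Agent.H98.RFC

/-! ## Definitions -/

/-- Steps of the triangular lattice (the step `0` is allowed). -/
def Tri (z : Site) : Prop :=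
  z = (0, 0) ∨ z = (1, 0) ∨ z = (-1, 0) ∨ z = (0, 1) ∨ z = (0, -1) ∨ z = (1, 1) ∨ z = (-1, -1)

/-- Planar couplings: nearest neighbours and one diagonal. -/
def IsTri (J : Site → ℝ) : Prop := ∀ z, J z ≠ 0 → Tri z

/-- Every triangular path from `eb z (12u)` to the outside of `eb z (C u)` meets `D` outside
`eb z (12u)`. -/
def Shield (D : Finset Site) (z : Site) (u C : ℕ) : Prop :=
  ∀ (l : ℕ) (y : ℕ → Site), (∀ i, i < l → Tri (y (i + 1) - y i)) → y 0 ∈ eb z (12 * u) →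
    y l ∉ eb z (C * u) → ∃ j, j ≤ l ∧ y j ∈ D ∧ y j ∉ eb z (12 * u)

/-- Minimal capacity, through the local disagreement set, of a cut between `eb z (5u)` and the
outside of `eb z (10u)`. -/
def cz (R : ℕ) (J h : Site → ℝ) (u C : ℕ) (z : Site) : ℝ :=
  ((eb z (10 * u)).powerset.filter (fun U => eb z (5 * u) ⊆ U ∨ U = eb z (10 * u))).inf'
    ⟨eb z (10 * u), by simp⟩ (fun U => cap R J ↑(Ds R J h (eb z (C * u))) U)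

/-- The sites of the coarse lattice outside `𝒱` that are next to `𝒱`. -/
def bdy (𝒱 : Finset Site) : Finset Site := (hull 1 𝒱) \ 𝒱

/-! ## Topology -/

/-- Crossing paths meet. -/
def Q_PAR : Prop := ∀ (k l : ℕ) (x y : ℕ → Site), (∀ i, i < k → Tri (x (i + 1) - x i)) →
  (∀ i, i < l → Tri (y (i + 1) - y i)) →
  (∀ j, j ≤ l → (x 0).1 < (y j).1 ∧ (y j).1 < (x k).1) →
  (∀ i, i ≤ k → (x i).1 = (y 0).1 → (y 0).2 < (x i).2) →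
  (∀ i, i ≤ k → (x i).1 = (y l).1 → (x i).2 < (y l).2) →
  ∃ i j, i ≤ k ∧ j ≤ l ∧ x i = y j

/-- Four crossed tubes in two directions make a shield. -/
def Q_RNG : Prop := ∀ φ : ℝ, 0 < φ → φ ≤ 1 → ∃ M₁ : ℕ, ∀ M : ℕ, M₁ ≤ M → ∀ v₁ v₂ : Site,
  InVM M v₁ → InVM M v₂ → φ * |(gdot v₁ v₂ : ℝ)| ≤ |(fdet v₁ v₂ : ℝ)| →
  ∀ u : ℕ, 100 ≤ u → ∀ z : Site, ∃ y a : Fin 4 → Site, (∀ i, a i = v₁ ∨ a i = v₂) ∧
    (∀ i, ∀ x, nearSeg (y i) (y i + sm u (a i)) x (2 * u) → x ∈ eb z ((M + 100) * u)) ∧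
    ∀ D : Finset Site,
      (∀ i, ∃ (k : ℕ) (x : ℕ → Site), (∀ j, j ≤ k → x j ∈ D) ∧
        (∀ j, j < k → Tri (x (j + 1) - x j)) ∧
        (∀ j, j ≤ k → nearSeg (y i) (y i + sm u (a i)) (x j) (2 * u)) ∧
        x 0 ∈ eb (y i) (2 * u) ∧ x k ∈ eb (y i + sm u (a i)) (2 * u)) →
      Shield D z u (M + 100)

/-! ## Shields and local cuts -/

/-- Shields are likely if the tubes in two directions are easy, also under shifts. -/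
def Q_SHD : Prop := ∀ (R : ℕ) (J : Site → ℝ), IsCoupling R J → IsTri J → ∀ (ε φ δ s : ℝ)
  (M K' u : ℕ) (v₁ v₂ z : Site) (V Λ : Finset Site),
  0 < φ → φ ≤ 1 → (∀ v₁ v₂ : Site, InVM M v₁ → InVM M v₂ →
    φ * |(gdot v₁ v₂ : ℝ)| ≤ |(fdet v₁ v₂ : ℝ)| →
    ∀ u : ℕ, 100 ≤ u → ∀ z : Site, ∃ y a : Fin 4 → Site, (∀ i, a i = v₁ ∨ a i = v₂) ∧
    (∀ i, ∀ x, nearSeg (y i) (y i + sm u (a i)) x (2 * u) → x ∈ eb z ((M + 100) * u)) ∧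
    ∀ D : Finset Site,
      (∀ i, ∃ (k : ℕ) (x : ℕ → Site), (∀ j, j ≤ k → x j ∈ D) ∧
        (∀ j, j < k → Tri (x (j + 1) - x j)) ∧
        (∀ j, j ≤ k → nearSeg (y i) (y i + sm u (a i)) (x j) (2 * u)) ∧
        x 0 ∈ eb (y i) (2 * u) ∧ x k ∈ eb (y i + sm u (a i)) (2 * u)) →
      Shield D z u (M + 100)) →
  InVM M v₁ → InVM M v₂ → φ * |(gdot v₁ v₂ : ℝ)| ≤ |(fdet v₁ v₂ : ℝ)| → 100 ≤ u → 0 ≤ δ →
  1 - δ ≤ pC R J ε u v₁ K' → 1 - δ ≤ pC R J ε u v₂ K' →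
  eb z ((M + 100) * u) ⊆ Λ → (∀ x ∈ Λ, nsq (x - z) ≤ ((K' : ℤ) - M - 200) ^ 2 * (u : ℤ) ^ 2) →
  M + 200 ≤ K' →
  (gam {η | ¬ Shield (Ds R J (fun x => ε * shf V s η x) Λ) z u (M + 100)}).toReal ≤
    4 * (Real.exp (s ^ 2 * (V.card : ℝ) / 2) * Real.sqrt δ)

/-- A shield upgrades the local disagreement set. -/
def Q_UPG : Prop := ∀ (R : ℕ) (J : Site → ℝ), IsCoupling R J → IsTri J → ∀ (h : Site → ℝ)
  (Λ : Finset Site) (z : Site) (u C C' : ℕ), C ≤ C' → 12 ≤ C → 1 ≤ u → eb z (C' * u) ⊆ Λ →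
  Shield (Ds R J h Λ) z u C →
  Ds R J h (eb z (C' * u)) ∩ eb z (12 * u) ⊆ Ds R J h Λ

/-- Basic properties of `cz`. -/
def Q_CZ : Prop := ∀ (R : ℕ) (J : Site → ℝ), IsCoupling R J → ∀ (ε : ℝ) (u C : ℕ) (z : Site),
  Measurable (fun η : Site → ℝ => cz R J (fun x => ε * η x) u C z) ∧
  (∀ η : Site → ℝ, 0 ≤ cz R J (fun x => ε * η x) u C z) ∧
  (∀ η η' : Site → ℝ, (∀ x ∈ eb z (C * u), η x = η' x) →
    cz R J (fun x => ε * η x) u C z = cz R J (fun x => ε * η' x) u C z) ∧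
  (∀ c : ℝ, gam {η | c < cz R J (fun x => ε * η x) u C z} =
    gam {η | c < cz R J (fun x => ε * η x) u C 0}) ∧
  (∀ c : ℝ, gam {η | c ≤ cz R J (fun x => ε * η x) u C z} =
    gam {η | c ≤ cz R J (fun x => ε * η x) u C 0}) ∧
  (∀ η : Site → ℝ, ∃ U : Finset Site, eb z (5 * u) ⊆ U ∧ U ⊆ eb z (10 * u) ∧
    cap R J ↑(Ds R J (fun x => ε * η x) (eb z (C * u))) U = cz R J (fun x => ε * η x) u C z)

/-- Many sites if the minimal cut is large. -/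
def Q_LAY : Prop := ∀ (R : ℕ) (J : Site → ℝ), IsCoupling R J → 1 ≤ R → ∀ (h : Site → ℝ)
  (u C : ℕ) (z : Site), 10 * R ≤ u → 12 ≤ C →
  cz R J h u C z * (u : ℝ) ≤
    R * Jt R J * (((Ds R J h (eb z (C * u)) ∩ eb z (10 * u)) \ eb z (5 * u)).card : ℝ)

/-- A crossed tube makes the minimal cut positive. -/
def Q_POS : Prop := ∀ (R : ℕ) (J : Site → ℝ), IsCoupling R J → ∀ (h : Site → ℝ)
  (M K' u C : ℕ) (v : Site), 30 ≤ M → InVM M v → 10 * R + 10 ≤ u → 12 ≤ C → C ≤ K' →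
  Crs R J h u v K' 0 → 0 < cz R J h u C 0

/-! ## Upper bound for the tension -/

/-- The tension through a coarse cut. -/
def Q_TEN : Prop := ∀ (R : ℕ) (J : Site → ℝ), IsCoupling R J → ∀ (h : Site → ℝ)
  (u n C : ℕ) (c : ℝ) (𝒱 : Finset Site), 10 * R + 10 ≤ u → 12 ≤ C → C + 2 ≤ n →
  box (2 * n) ⊆ 𝒱 → 𝒱 ⊆ box (4 * n) → (∀ y ∈ bdy 𝒱, cz R J h u C (sm u y) ≤ c) →
  ten R J h (box (n * u)) (box (8 * (n * u))) ≤ 4 * (c * ((bdy 𝒱).card : ℝ))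

/-- Percolation of rare, locally dependent bad cells: a short coarse contour avoids them. -/
def Q_PRC : Prop := ∃ C₄ : ℝ, 0 < C₄ ∧ ∀ r : ℕ, ∃ δ₀ : ℝ, 0 < δ₀ ∧ δ₀ < 1 ∧ ∃ n₀ : ℕ,
  ∀ n : ℕ, n₀ ≤ n → ∀ (Ω : Type) [MeasurableSpace Ω] (P : Measure Ω) [IsProbabilityMeasure P]
    (B : Site → Set Ω), (∀ y, MeasurableSet (B y)) →
    (∀ S : Finset Site, (∀ y ∈ S, ∀ y' ∈ S, y ≠ y' → y - y' ∉ box r) →
      (P (⋂ y ∈ S, B y)).toReal ≤ δ₀ ^ S.card) →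
    3 / 4 ≤ (P {ω | ∃ 𝒱 : Finset Site, box (2 * n) ⊆ 𝒱 ∧ 𝒱 ⊆ box (4 * n) ∧
      (∀ y ∈ bdy 𝒱, ω ∉ B y) ∧ ((bdy 𝒱).card : ℝ) ≤ C₄ * n}).toReal

/-- Upper bound for the tension with probability at least 3/4. -/
def Q_UP : Prop := ∃ C₄ : ℝ, 0 < C₄ ∧ ∀ C : ℕ, 12 ≤ C → ∃ δ₀ : ℝ, 0 < δ₀ ∧ δ₀ < 1 ∧ ∃ n₀ : ℕ,
  ∀ n : ℕ, n₀ ≤ n → ∀ (R : ℕ) (J : Site → ℝ), IsCoupling R J → ∀ (ε c : ℝ) (u : ℕ), 0 ≤ c →
    10 * R + 10 ≤ u → (gam {η | c < cz R J (fun x => ε * η x) u C 0}).toReal ≤ δ₀ →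
    3 / 4 ≤ (gam {η | ten R J (fun x => ε * η x) (box (n * u)) (box (8 * (n * u))) ≤
      C₄ * n * c}).toReal

/-! ## Lower bound for the tension -/

/-- Quantiles. -/
def Q_TYP : Prop := ∀ (f : (Site → ℝ) → ℝ), Measurable f → (∀ η, 0 ≤ f η) → ∀ δ₀ : ℝ, 0 < δ₀ →
  δ₀ < 1 → ∃ c : ℝ, 0 ≤ c ∧ (gam {η | c < f η}).toReal ≤ δ₀ ∧ δ₀ ≤ (gam {η | c ≤ f η}).toReal

/-- Many independent events: at least half of the expected number occurs with probability at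
least `1 - 4/(p m)`. -/
def Q_CHB : Prop := ∀ (Ω : Type) [MeasurableSpace Ω] (P : Measure Ω) [IsProbabilityMeasure P]
  (I : Finset Site) (A : Site → Set Ω) (p : ℝ), (∀ y ∈ I, MeasurableSet (A y)) → 0 < p →
  (∀ y ∈ I, p ≤ (P (A y)).toReal) →
  (∀ y ∈ I, ∀ y' ∈ I, y ≠ y' → P (A y ∩ A y') = P (A y) * P (A y')) →
  (P {ω | ∃ S : Finset Site, S ⊆ I ∧ (∀ y ∈ S, ω ∈ A y) ∧
    p * (I.card : ℝ) / 2 ≤ (S.card : ℝ)}).toReal ≥ 1 - 4 / (p * (I.card : ℝ))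

/-- Lower bound for the disagreement set in `box (n u)` under a shift. -/
def Q_LOW : Prop := ∀ (R : ℕ) (J : Site → ℝ), IsCoupling R J → 1 ≤ R → IsTri J →
  ∀ (δ₀ A : ℝ) (C C' : ℕ), 12 ≤ C → C ≤ C' → 0 < δ₀ → δ₀ < 1 → 0 < A →
  ∃ n₀ : ℕ, ∀ n : ℕ, n₀ ≤ n → ∀ (ε c s : ℝ) (u : ℕ), 0 < c → 10 * R + 10 ≤ u →
    |s| ≤ A / (n * u) →
    δ₀ ≤ (gam {η | c ≤ cz R J (fun x => ε * η x) u C' 0}).toReal →
    (∀ z : Site, eb z (C' * u) ⊆ box (n * u) →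
      (gam {η | ¬ Shield (Ds R J (fun x => ε * shf (box (n * u)) s η x)
        (box (8 * (n * u)))) z u C}).toReal ≤ δ₀ ^ 2 / 3200) →
    49 / 50 ≤ (gam {η | δ₀ ^ 2 / 8 * ((n : ℝ) ^ 2 / (100 * (C' : ℝ) ^ 2)) *
        (c * u / (R * Jt R J)) ≤
      ((Ds R J (fun x => ε * shf (box (n * u)) s η x) (box (8 * (n * u))) ∩
        box (n * u)).card : ℝ)}).toReal

/-- Integration over the shifts: lower bound for the tension. -/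
def Q_INT : Prop := ∀ (R : ℕ) (J : Site → ℝ), IsCoupling R J → ∀ (ε Y τ : ℝ)
  (V Λ : Finset Site), 0 < ε → 0 < τ → 0 ≤ Y → V ⊆ Λ →
  (∀ s : ℝ, |s| ≤ τ → 49 / 50 ≤ (gam {η |
    Y ≤ ((Ds R J (fun x => ε * shf V s η x) Λ ∩ V).card : ℝ)}).toReal) →
  9 / 10 ≤ (gam {η | 2 * ε * τ * Y ≤ ten R J (fun x => ε * η x) V Λ}).toReal

/-- Planar couplings: exponential decay at temperature zero. -/
def Q_ALL : Prop := ∀ (R : ℕ) (J : Site → ℝ), IsCoupling R J → IsTri J → ∀ ε : ℝ, 0 < ε →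
  ExpDecay R J 0 ε

/-- Final theorem: planar couplings and all finite range couplings close to them. -/
def Q_FIN : Prop := ∀ (R : ℕ) (J₀ : Site → ℝ), IsCoupling R J₀ → IsTri J₀ → ∀ ε₀ : ℝ, 0 < ε₀ →
  ExpDecay R J₀ 0 ε₀ ∧
  ∃ δ > 0, ∃ C > 0, ∃ c > 0, ∀ (J : Site → ℝ), IsCoupling R J → ∀ (T ε : ℝ), 0 ≤ T →
    (∀ z, |J z - J₀ z| < δ) → T < δ → |ε - ε₀| < δ →
    ∀ L : ℕ, 1 ≤ L → mag R J T ε L ≤ C * Real.exp (-(c * L))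

end Pool.Agent.H98.RFZ
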