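import Pool.Agent.H98.RFZ.Targets
import Pool.Agent.H11.RFC.FAC

/-!
# Linear changes of coordinates (temperature zero)

If `J' = J ∘ A` for an automorphism `A` of `ℤ²` then exponential decay for `J'` implies
exponential decay for `J`.
-/

set_option autoImplicit false

noncomputable section

open MeasureTheory ProbabilityTheory Filter Topology

namespace Pool.Agent.H98.RFZ.Lin

open Pool.Agent.H98.RFC Pool.Agent.H98.RFZ

/-- image of a finite set -/
def im (A : Site ≃+ Site) (Λ : Finset Site) : Finset Site := Λ.map A.toEquiv.toEmbedding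

theorem mem_im (A : Site ≃+ Site) (Λ : Finset Site) (x : Site) : A x ∈ im A Λ ↔ x ∈ Λ := by
  unfold im
  rw [Finset.mem_map]
  constructor
  · rintro ⟨y, hy, hyx⟩
    have : y = x := A.injective hyx
    exact this ▸ hy
  · intro hx
    exact ⟨x, hx, rfl⟩

theorem ex_im (A : Site ≃+ Site) (S : Finset Site) : ∃ S', S = im A S' := by
  refine ⟨im A.symm S, ?_⟩
  ext z
  obtain ⟨x, rfl⟩ := A.surjective z
  rw [mem_im]
  have h := mem_im A.symm S (A x)
  rw [AddEquiv.symm_apply_apply] at h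
  rw [h]

theorem im_sub (A : Site ≃+ Site) (S Λ : Finset Site) : im A S ⊆ im A Λ ↔ S ⊆ Λ := by
  unfold im
  exact Finset.map_subset_map

theorem pre_im (A : Site ≃+ Site) (S : Finset Site) (B : Set Site) :
    A ⁻¹' (↑(im A S) ∪ B) = ↑S ∪ A ⁻¹' B := by
  ext z
  simp only [Set.mem_preimage, Set.mem_union, Finset.mem_coe, mem_im]

theorem memprs (R : ℕ) (Λ : Finset Site) (p : Site × Site) :
    p ∈ prs R Λ ↔ (p.1 ∈ Λ ∨ p.2 ∈ Λ) ∧ p.2 - p.1 ∈ box R := by
  constructor
  · intro h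
    unfold prs at h
    exact (Finset.mem_filter.1 h).2
  · rintro ⟨h1 | h1, h2⟩
    · exact (Pool.Agent.H11.RFC.mem_prs_of h1 h2).1
    · have h3 : p.1 - p.2 ∈ box R := by
        rw [Pool.Agent.H11.RFC.mem_box] at h2 ⊢
        obtain ⟨⟨a, b⟩, c, d⟩ := h2
        simp only [Prod.fst_sub, Prod.snd_sub] at a b c d ⊢
        refine ⟨⟨?_, ?_⟩, ?_, ?_⟩ <;> linarith
      exact (Pool.Agent.H11.RFC.mem_prs_of h1 h3).2

theorem en_lin (A : Site ≃+ Site) (R R' : ℕ) (J J' h : Site → ℝ)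
    (hJ : ∀ z, z ∉ box R → J z = 0) (hJ' : ∀ z, z ∉ box R' → J' z = 0)
    (hJJ : ∀ z, J' z = J (A z)) (Λ : Finset Site) (S : Set Site) :
    en R J h (im A Λ) S = en R' J' (fun x => h (A x)) Λ (A ⁻¹' S) := by
  have hneg : ∀ (r : ℕ) (z : Site), z ∈ box r → -z ∈ box r := by
    intro r z hz
    rw [Pool.Agent.H11.RFC.mem_box] at hz ⊢
    obtain ⟨⟨a, b⟩, c, d⟩ := hz
    simp only [Prod.fst_neg, Prod.snd_neg]
    refine ⟨⟨?_, ?_⟩, ?_, ?_⟩ <;> linarith
  have h1 : ∑ p ∈ prs R' Λ, J' (p.1 - p.2) * sg (A ⁻¹' S) p.1 * sg (A ⁻¹' S) p.2 =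
      ∑ p ∈ prs R (im A Λ), J (p.1 - p.2) * sg S p.1 * sg S p.2 := by
    refine Finset.sum_bij_ne_zero (fun p _ _ => (A p.1, A p.2)) ?_ ?_ ?_ ?_
    · intro p hp hne
      rw [memprs] at hp ⊢
      refine ⟨hp.1.imp (fun h => (mem_im A Λ p.1).2 h) (fun h => (mem_im A Λ p.2).2 h), ?_⟩
      by_contra hc
      apply hne
      have h2 : J' (p.1 - p.2) = 0 := by
        rw [hJJ, map_sub]
        refine hJ _ fun h3 => hc ?_
        have h4 := hneg R _ h3
        rw [neg_sub] at h4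
        exact h4
      rw [h2, zero_mul, zero_mul]
    · intro p _ _ q _ _ hpq
      have h2 : A p.1 = A q.1 ∧ A p.2 = A q.2 := by
        simpa using hpq
      exact Prod.ext (A.injective h2.1) (A.injective h2.2)
    · rintro ⟨a, b⟩ hp hne
      obtain ⟨a, rfl⟩ := A.surjective a
      obtain ⟨b, rfl⟩ := A.surjective b
      rw [memprs] at hp
      have h3 : J' (a - b) * sg (A ⁻¹' S) a * sg (A ⁻¹' S) b ≠ 0 := by
        have e : J' (a - b) = J (A a - A b) := by rw [hJJ, map_sub]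
        rw [e]
        exact hne
      refine ⟨(a, b), ?_, h3, rfl⟩
      rw [memprs]
      refine ⟨hp.1.imp (fun h => (mem_im A Λ a).1 h) (fun h => (mem_im A Λ b).1 h), ?_⟩
      by_contra hc
      apply h3
      have h2 : J' (a - b) = 0 := by
        refine hJ' _ fun h4 => hc ?_
        have h5 := hneg R' _ h4
        rw [neg_sub] at h5
        exact h5
      rw [h2, zero_mul, zero_mul]
    · intro p _ _
      have e : J' (p.1 - p.2) = J (A p.1 - A p.2) := by rw [hJJ, map_sub]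
      rw [e]
      rfl
  unfold en
  rw [h1]
  congr 1
  unfold im
  rw [Finset.sum_map]
  rfl

theorem gs_lin (A : Site ≃+ Site) (R R' : ℕ) (J J' h : Site → ℝ)
    (hJ : ∀ z, z ∉ box R → J z = 0) (hJ' : ∀ z, z ∉ box R' → J' z = 0)
    (hJJ : ∀ z, J' z = J (A z)) (Λ : Finset Site) (B : Set Site) (S : Finset Site) :
    im A S ∈ gs R J h (im A Λ) B ↔ S ∈ gs R' J' (fun x => h (A x)) Λ (A ⁻¹' B) := by
  classical
  unfold gs
  rw [Finset.mem_filter, Finset.mem_filter, Finset.mem_powerset, Finset.mem_powerset, im_sub]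
  refine and_congr_right fun _ => ?_
  rw [en_lin A R R' J J' h hJ hJ' hJJ, pre_im]
  constructor
  · intro H S' hS'
    have h1 := H (im A S') (Finset.mem_powerset.mpr ((im_sub A S' Λ).2 (Finset.mem_powerset.mp hS')))
    rw [en_lin A R R' J J' h hJ hJ' hJJ, pre_im] at h1
    exact h1
  · intro H S' hS'
    obtain ⟨S'', rfl⟩ := ex_im A S'
    rw [en_lin A R R' J J' h hJ hJ' hJJ, pre_im]
    refine H _ ?_
    rw [Finset.mem_powerset] at hS' ⊢
    exact (im_sub A S'' Λ).1 hS'

theorem Ds_lin (A : Site ≃+ Site) (R R' : ℕ) (J J' h : Site → ℝ)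
    (hJ : ∀ z, z ∉ box R → J z = 0) (hJ' : ∀ z, z ∉ box R' → J' z = 0)
    (hJJ : ∀ z, J' z = J (A z)) (Λ : Finset Site) (x : Site) :
    A x ∈ Ds R J h (im A Λ) ↔ x ∈ Ds R' J' (fun x => h (A x)) Λ := by
  classical
  have hc : A ⁻¹' ((↑(im A Λ) : Set Site)ᶜ) = ((↑Λ : Set Site))ᶜ := by
    ext z
    simp only [Set.mem_preimage, Set.mem_compl_iff, Finset.mem_coe, mem_im]
  have he : A ⁻¹' (∅ : Set Site) = ∅ := Set.preimage_empty
  have hgp : ∀ B : Set Site, A x ∈ gp R J h (im A Λ) B ↔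
      x ∈ gp R' J' (fun x => h (A x)) Λ (A ⁻¹' B) := by
    intro B
    unfold gp
    rw [Finset.mem_filter, Finset.mem_filter, mem_im]
    refine and_congr_right fun _ => ?_
    constructor
    · rintro ⟨S, hS, hx⟩
      obtain ⟨S', rfl⟩ := ex_im A S
      exact ⟨S', (gs_lin A R R' J J' h hJ hJ' hJJ Λ B S').1 hS, (mem_im A S' x).1 hx⟩
    · rintro ⟨S, hS, hx⟩
      exact ⟨im A S, (gs_lin A R R' J J' h hJ hJ' hJJ Λ B S).2 hS, (mem_im A S x).2 hx⟩
  have hgn : ∀ B : Set Site, A x ∈ gn R J h (im A Λ) B ↔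
      x ∈ gn R' J' (fun x => h (A x)) Λ (A ⁻¹' B) := by
    intro B
    unfold gn
    rw [Finset.mem_filter, Finset.mem_filter, mem_im]
    refine and_congr_right fun _ => ?_
    constructor
    · intro H S hS
      exact (mem_im A S x).1 (H _ ((gs_lin A R R' J J' h hJ hJ' hJJ Λ B S).2 hS))
    · intro H S hS
      obtain ⟨S', rfl⟩ := ex_im A S
      exact (mem_im A S' x).2 (H S' ((gs_lin A R R' J J' h hJ hJ' hJJ Λ B S').1 hS))
  unfold Ds
  rw [Finset.mem_sdiff, Finset.mem_sdiff, hgp, hgn, hc, he]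

/-- The law of the field is invariant under permutations of the sites. -/
theorem gam_perm (A : Site ≃ Site) :
    gam.map (fun (η : Site → ℝ) (x : Site) => η (A x)) = gam := by
  unfold gam
  refine Measure.eq_infinitePi _ fun s t ht => ?_
  have hmeas : Measurable (fun (η : Site → ℝ) (x : Site) => η (A x)) :=
    measurable_pi_lambda _ fun x => measurable_pi_apply (A x)
  rw [Measure.map_apply hmeas (MeasurableSet.pi s.countable_toSet fun i _ => ht i)]
  have hpre : (fun (η : Site → ℝ) (x : Site) => η (A x)) ⁻¹' (Set.pi (↑s : Set Site) t)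
      = Set.pi (↑(s.image fun x => A x) : Set Site) (fun z => t (A.symm z)) := by
    ext η
    simp only [Set.mem_preimage, Set.mem_pi, Finset.coe_image, Set.mem_image, Finset.mem_coe]
    constructor
    · rintro h z ⟨x, hx, rfl⟩
      rw [Equiv.symm_apply_apply]
      exact h x hx
    · intro h x hx
      have := h (A x) ⟨x, hx, rfl⟩
      rw [Equiv.symm_apply_apply] at this
      exact this
  rw [hpre, Measure.infinitePi_pi _ (fun i _ => ht _),
    Finset.prod_image (fun a _ b _ hab => A.injective hab)]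
  refine Finset.prod_congr rfl fun x _ => ?_
  rw [Equiv.symm_apply_apply]

end Pool.Agent.H98.RFZ.Lin
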