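import Pool.Agent.H98.RFZ.Defs

/-!
# Board `rfz_modules`, part 0 (ground states, tension, Gaussian shifts) and part 1 (relative
decay inequality): targets

`h` is the external field.  Paper: `/team-store/RFZ_PAPER.md`.
-/

set_option autoImplicit false

noncomputable section

open MeasureTheory ProbabilityTheory Filter Topology

namespace Pool.Agent.H98.RFZ

open Pool.Agent.H98.RFC

/-! ## Part 0: ground states -/

/-- Unions and intersections of ground states are ground states. -/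
def Z_LAT : Prop := ∀ (R : ℕ) (J : Site → ℝ), IsCoupling R J → ∀ (h : Site → ℝ)
  (Λ : Finset Site) (B : Set Site), Disjoint B (↑Λ : Set Site) →
  (∀ S ∈ gs R J h Λ B, ∀ S' ∈ gs R J h Λ B, S ∪ S' ∈ gs R J h Λ B ∧ S ∩ S' ∈ gs R J h Λ B) ∧
  gp R J h Λ B ∈ gs R J h Λ B ∧ gn R J h Λ B ∈ gs R J h Λ B ∧
  (∀ S ∈ gs R J h Λ B, gn R J h Λ B ⊆ S ∧ S ⊆ gp R J h Λ B)

/-- Monotonicity in the boundary condition. -/
def Z_MB : Prop := ∀ (R : ℕ) (J : Site → ℝ), IsCoupling R J → ∀ (h : Site → ℝ)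
  (Λ : Finset Site) (B₁ B₂ : Set Site), B₁ ⊆ B₂ → Disjoint B₁ (↑Λ : Set Site) →
  Disjoint B₂ (↑Λ : Set Site) →
    gp R J h Λ B₁ ⊆ gp R J h Λ B₂ ∧ gn R J h Λ B₁ ⊆ gn R J h Λ B₂

/-- Restriction of the extremal ground states to a subdomain. -/
def Z_RES : Prop := ∀ (R : ℕ) (J : Site → ℝ), IsCoupling R J → ∀ (h : Site → ℝ)
  (W Λ : Finset Site) (B : Set Site), W ⊆ Λ → Disjoint B (↑Λ : Set Site) →
    gp R J h Λ B ∩ W = gp R J h W (↑(gp R J h Λ B \ W) ∪ B) ∧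
    gn R J h Λ B ∩ W = gn R J h W (↑(gn R J h Λ B \ W) ∪ B)

/-- Only the boundary sites joined to the domain by a bond matter. -/
def Z_LOB : Prop := ∀ (R : ℕ) (J : Site → ℝ), IsCoupling R J → ∀ (h : Site → ℝ)
  (W : Finset Site) (B B' : Set Site), Disjoint B (↑W : Set Site) → Disjoint B' (↑W : Set Site) →
  (∀ a ∈ W, ∀ b, b ∉ W → 0 < J (a - b) → (b ∈ B ↔ b ∈ B')) → gs R J h W B = gs R J h W B'

/-- Monotonicity in the domain. -/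
def Z_DM : Prop := ∀ (R : ℕ) (J : Site → ℝ), IsCoupling R J → ∀ (h : Site → ℝ)
  (W Λ : Finset Site), W ⊆ Λ → Ds R J h Λ ∩ W ⊆ Ds R J h W

/-- Shielding. -/
def Z_SH : Prop := ∀ (R : ℕ) (J : Site → ℝ), IsCoupling R J → ∀ (h : Site → ℝ)
  (W Λ : Finset Site), W ⊆ Λ →
  (∀ a ∈ W, ∀ b, b ∉ W → 0 < J (a - b) → (b ∈ Ds R J h Λ ∨ b ∉ Λ)) →
    Ds R J h Λ ∩ W = Ds R J h W

/-- Every site of the disagreement set is joined to the outside inside the disagreement set. -/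
def Z_CON : Prop := ∀ (R : ℕ) (J : Site → ℝ), IsCoupling R J → ∀ (h : Site → ℝ)
  (Λ : Finset Site), (gs R J h Λ (↑Λ)ᶜ).card = 1 → (gs R J h Λ ∅).card = 1 →
  ∀ z ∈ Ds R J h Λ, ∃ (k : ℕ) (x : ℕ → Site), IsPath J (Ds R J h Λ) k x ∧ x 0 = z ∧
    ∃ b, b ∉ Λ ∧ 0 < J (b - x k)

open Classical in
/-- The influence at temperature zero. -/
def Z_INF : Prop := ∀ (R : ℕ) (J : Site → ℝ), IsCoupling R J → ∀ (h : Site → ℝ)
  (Λ : Finset Site), (gs R J h Λ (↑Λ)ᶜ).card = 1 → (gs R J h Λ ∅).card = 1 →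
  ∀ x ∈ Λ, infl R J h 0 Λ x = if x ∈ Ds R J h Λ then 1 else 0

/-- `m` at temperature zero. -/
def Z_MAG : Prop := ∀ (R : ℕ) (J : Site → ℝ), IsCoupling R J → ∀ ε : ℝ, ε ≠ 0 → ∀ L : ℕ,
  mag R J 0 ε L = (gam {η | (0 : Site) ∈ Ds R J (fun x => ε * η x) (box L)}).toReal

/-- The disagreement set depends on the field in the domain only. -/
def Z_LOC : Prop := ∀ (R : ℕ) (J h h' : Site → ℝ) (Λ : Finset Site),
  (∀ z ∈ Λ, h z = h' z) → Ds R J h Λ = Ds R J h' Λ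

/-- Translations. -/
def Z_TRA : Prop := ∀ (R : ℕ) (J h : Site → ℝ) (Λ : Finset Site) (y : Site),
  Ds R J h (Λ.image (fun x => y + x)) =
    (Ds R J (fun x => h (y + x)) Λ).image (fun x => y + x)

/-- Measurability. -/
def Z_MEA : Prop := ∀ (R : ℕ) (J : Site → ℝ) (Λ S : Finset Site),
  MeasurableSet {h : Site → ℝ | Ds R J h Λ = S}

/-! ## Part 0: surface tension -/

/-- Basic properties of the tension. -/
def Z_TEN : Prop := ∀ (R : ℕ) (J : Site → ℝ), IsCoupling R J → ∀ (V Λ : Finset Site), V ⊆ Λ →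
  (∀ h : Site → ℝ, 0 ≤ ten R J h V Λ) ∧
  (∀ h h' : Site → ℝ, (∀ x ∈ Λ \ V, h x = h' x) → ten R J h V Λ = ten R J h' V Λ) ∧
  Measurable (fun h : Site → ℝ => ten R J h V Λ)

/-- Aizenman–Peled inequality. -/
def Z_AP : Prop := ∀ (R : ℕ) (J : Site → ℝ), IsCoupling R J → ∀ (h : Site → ℝ)
  (V Λ : Finset Site), V ⊆ Λ → ∀ t₁ t₂ : ℝ, t₁ ≤ t₂ →
  2 * ∫ t in Set.Icc t₁ t₂, ((Ds R J (shf V t h) Λ ∩ V).card : ℝ) ≤ ten R J h V Λ

/-- The tension is at most four times the capacity of any cut through the disagreement set of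
the annulus. -/
def Z_CUT : Prop := ∀ (R : ℕ) (J : Site → ℝ), IsCoupling R J → ∀ (h : Site → ℝ)
  (V U Λ : Finset Site), V ⊆ U → U ⊆ Λ →
  ten R J h V Λ ≤ 4 * cap R J (↑V ∪ ↑(Ds R J h (Λ \ V)) ∪ (↑Λ)ᶜ) U

/-! ## Part 0: the Gaussian field -/

/-- Cameron–Martin formula. -/
def Z_CM : Prop := ∀ (V : Finset Site) (s : ℝ) (f : (Site → ℝ) → ℝ), Measurable f →
  (∃ C, ∀ η, |f η| ≤ C) →
  ∫ η, f (shf V s η) ∂gam =
    ∫ η, f η * Real.exp (s * ∑ x ∈ V, η x - s ^ 2 * (V.card : ℝ) / 2) ∂gam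

/-- Averaging over small shifts. -/
def Z_GA : Prop := ∀ (V : Finset Site) (a : ℝ), 0 < a → ∀ f : (Site → ℝ) → ℝ, Measurable f →
  (∀ η, 0 ≤ f η) → (∃ C, ∀ η, f η ≤ C) →
  ∫ η, f η ∂gam ≤ Real.exp (a ^ 2 * (V.card : ℝ) / 2) * (1 / (2 * a)) *
    ∫ η, (∫ s in Set.Icc (-a) a, f (shf V s η)) ∂gam

/-- Change of the probability of an event under a shift. -/
def Z_GP : Prop := ∀ (V : Finset Site) (s : ℝ) (A : Set (Site → ℝ)), MeasurableSet A →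
  (gam {η | shf V s η ∈ A}).toReal ≤
    Real.exp (s ^ 2 * (V.card : ℝ) / 2) * Real.sqrt (gam A).toReal

/-- Lower bound for local events under a shift. -/
def Z_GL : Prop := ∀ (V Y : Finset Site) (s : ℝ) (A : Set (Site → ℝ)), MeasurableSet A →
  (∀ η η' : Site → ℝ, (∀ x ∈ Y, η x = η' x) → η ∈ A → η' ∈ A) →
  (gam A).toReal ^ 2 ≤
    Real.exp (s ^ 2 * (Y.card : ℝ)) * (gam {η | shf V s η ∈ A}).toReal

/-- Independence of events that depend on disjoint sets of sites. -/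
def Z_IND : Prop := ∀ (n : ℕ) (Y : Fin n → Finset Site) (A : Fin n → Set (Site → ℝ)),
  (∀ i j, i ≠ j → Disjoint (Y i) (Y j)) → (∀ i, MeasurableSet (A i)) →
  (∀ i, ∀ η η' : Site → ℝ, (∀ x ∈ Y i, η x = η' x) → η ∈ A i → η' ∈ A i) →
  gam (⋂ i, A i) = ∏ i, gam (A i)

/-! ## Part 1: relative decay in elongated rectangles -/

/-- Rectangles contain the right number of sites. -/
def P_AREA : Prop := ∀ (p : Site) (K w : ℝ), p ≠ 0 → 1 ≤ K → 4 ≤ w →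
  K * w ^ 2 ≤ ((rect p K w).card : ℝ) ∧ ((rect p K w).card : ℝ) ≤ 16 * K * w ^ 2

/-- Inclusions between rectangles and boxes. -/
def P_RCT : Prop := ∀ (p : Site) (K w : ℝ), p ≠ 0 → 1 ≤ K → 0 ≤ w →
  (∀ x : Site, x ∈ rect p K w ↔
    |(fdet p x : ℝ)| ≤ w * nrm p ∧ |(gdot p x : ℝ)| ≤ K * w * nrm p) ∧
  (∀ w' : ℝ, w ≤ w' → rect p K w ⊆ rect p K w') ∧
  (∀ L : ℕ, (1 + K) * w ≤ L → rect p K w ⊆ box L) ∧
  (∀ x ∈ rect p K w, rect p K (4 * w) ⊆ (rect p K (5 * w)).image (fun z => x + z))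

/-- `mK` is decreasing and bounds `mag`. -/
def P_MON : Prop := ∀ (R : ℕ) (J : Site → ℝ), IsCoupling R J → ∀ ε : ℝ, ε ≠ 0 →
  ∀ (p : Site) (K w : ℝ), p ≠ 0 → 1 ≤ K → 0 ≤ w →
  0 ≤ mK R J ε p K w ∧ mK R J ε p K w ≤ 1 ∧
  (∀ w' : ℝ, w ≤ w' → mK R J ε p K w' ≤ mK R J ε p K w) ∧
  (∀ L : ℕ, (1 + K) * w ≤ L → mag R J 0 ε L ≤ mK R J ε p K w)

/-- Points of the inner rectangle. -/
def P_LB : Prop := ∀ (R : ℕ) (J : Site → ℝ), IsCoupling R J → ∀ ε : ℝ, ε ≠ 0 →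
  ∀ (p : Site) (K w : ℝ), p ≠ 0 → 1 ≤ K → 0 ≤ w →
  ((rect p K w).card : ℝ) * mK R J ε p K (5 * w) ≤
    ∫ η, ((Ds R J (fun x => ε * η x) (rect p K (4 * w)) ∩ rect p K w).card : ℝ) ∂gam

/-- Lower bound for the tension. -/
def P_TLB : Prop := ∀ (R : ℕ) (J : Site → ℝ), IsCoupling R J → ∀ ε : ℝ, 0 < ε →
  ∀ (p : Site) (K w : ℝ), p ≠ 0 → 1 ≤ K → 4 ≤ w →
  2 * ε * Real.sqrt K * w * mK R J ε p K (5 * w) ≤
    ∫ η, ten R J (fun x => ε * η x) (rect p K w) (rect p K (4 * w)) ∂gam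

open Classical in
/-- Deterministic upper bound for the tension if there are no short paths. -/
def P_CUT : Prop := ∀ (R : ℕ) (J : Site → ℝ), IsCoupling R J → ∀ (h : Site → ℝ)
  (p : Site) (K w : ℝ), p ≠ 0 → 1 ≤ K → (20 * R + 20 : ℝ) ≤ w → ¬ SP R J h p K w →
  ten R J h (rect p K w) (rect p K (4 * w)) ≤ (16 * R + 8 : ℝ) * Jt R J / (K * w) *
    (((Ds R J h (rect p K (4 * w) \ rect p K w)).filter (fun x =>
      |(fdet p x : ℝ)| ≤ 3 * w * nrm p ∧ |(gdot p x : ℝ)| ≤ 3 * K * w * nrm p ∧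
      (2 * w * nrm p < |(fdet p x : ℝ)| ∨ 3 / 2 * K * w * nrm p < |(gdot p x : ℝ)|))).card : ℝ)

/-- The disagreement set of the annulus, far from both boundaries. -/
def P_ANN : Prop := ∀ (R : ℕ) (J : Site → ℝ), IsCoupling R J → ∀ ε : ℝ, ε ≠ 0 →
  ∀ (p : Site) (K w : ℝ), p ≠ 0 → 1 ≤ K → 0 < w → ∀ x : Site,
  |(fdet p x : ℝ)| ≤ 3 * w * nrm p → |(gdot p x : ℝ)| ≤ 3 * K * w * nrm p →
  (2 * w * nrm p < |(fdet p x : ℝ)| ∨ 3 / 2 * K * w * nrm p < |(gdot p x : ℝ)|) →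
  (gam {η | x ∈ Ds R J (fun z => ε * η z) (rect p K (4 * w) \ rect p K w)}).toReal ≤
    mK R J ε p K (w / 2)

/-- The relative decay inequality. -/
def P_MAIN : Prop := ∀ (R : ℕ) (J : Site → ℝ), IsCoupling R J → ∀ ε : ℝ, 0 < ε →
  ∀ (p : Site) (K w : ℝ), p ≠ 0 → 1 ≤ K → (20 * R + 20 : ℝ) ≤ w →
  2 * ε * Real.sqrt K * mK R J ε p K (5 * w) ≤
    256 * (16 * R + 8) * Jt R J * mK R J ε p K (w / 2) +
    64 * Jt R J * K * w * (gam {η | SP R J (fun x => ε * η x) p K w}).toReal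

/-- Real analysis: a relative decay by `1/1000` per factor 10 gives a power larger than 1. -/
def P_REC : Prop := ∀ (m q : ℝ → ℝ) (w₀ : ℝ), 0 < w₀ → (∀ w, 0 ≤ m w ∧ m w ≤ 1) →
  (∀ w w', 0 < w → w ≤ w' → m w' ≤ m w) →
  (∀ w, w₀ ≤ w → m (5 * w) ≤ 1 / 1000 * m (w / 2) + w * q w) →
  (∀ w, w₀ ≤ w → q w ≤ (w ^ 4)⁻¹) →
  ∃ C : ℝ, ∀ w : ℝ, 1 ≤ w → m w ≤ C / w ^ 2

/-- Short paths are unlikely implies exponential decay. -/
def P_END : Prop := ∀ (R : ℕ) (J : Site → ℝ), IsCoupling R J → ∀ ε : ℝ, 0 < ε →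
  ∃ K₀ : ℝ, 1 ≤ K₀ ∧ ∀ (p : Site) (K w₀ : ℝ), p ≠ 0 → K₀ ≤ K →
    (∀ w : ℝ, w₀ ≤ w → (gam {η | SP R J (fun x => ε * η x) p K w}).toReal ≤ (w ^ 5)⁻¹) →
    ExpDecay R J 0 ε

end Pool.Agent.H98.RFZ
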