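import Pool.Agent.H98.RFZ.Inv
import Pool.Agent.H20.RFZ.B2Base

/-!
# Without exponential decay `L m(L)` tends to infinity (temperature zero), part 2
-/

set_option autoImplicit false

noncomputable section

open MeasureTheory ProbabilityTheory Filter Topology

namespace Pool.Agent.H98.RFZ.Inv

open Pool.Agent.H98.RFC Pool.Agent.H98.RFZ Pool.Agent.H67.RFZ Pool.Agent.H20.RFZ

/-- One crossed tube bounds `m` from below. -/
theorem one_tube (hDM : Z_DM) (hMAG : Z_MAG) (hTRA : Z_TRA) (hTRG : T_TRG)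
    (R : ℕ) (J : Site → ℝ) (hJ : IsCoupling R J) (ε : ℝ) (hε : ε ≠ 0) (M K' u L : ℕ) (v : Site)
    (hM : 10 ≤ M) (hv : InVM M v) (hK : 2 * (L : ℝ) + 2 * u ≤ K' * u) :
    (u : ℝ) * pC R J ε u v K' ≤
      R * (((tube 0 (0 + sm u v) (2 * u)).card : ℝ) * mag R J 0 ε L) := by
  classical
  have hprob : IsProbabilityMeasure gam := by unfold gam; infer_instance
  set T := tube 0 (0 + sm u v) (2 * u) with hT
  set W := tube 0 (0 + sm u v) (K' * u) with hW
  let f : (Site → ℝ) → ℝ := fun η => ∑ x ∈ T, (ev R J ε x W).indicator (fun _ => (1 : ℝ)) η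
  have hfint : ∀ x ∈ T, Integrable ((ev R J ε x W).indicator (fun _ => (1 : ℝ))) gam :=
    fun x _ => (integrable_const (1 : ℝ)).indicator (ev_meas R J ε x W)
  have hf : Integrable f gam := integrable_finsetSum _ hfint
  have hf0 : ∀ η, 0 ≤ f η := fun η =>
    Finset.sum_nonneg fun x _ => Set.indicator_nonneg (fun _ _ => zero_le_one) _
  have hint : ∫ η, f η ∂gam = ∑ x ∈ T, gam.real (ev R J ε x W) := by
    rw [integral_finsetSum _ hfint]
    refine Finset.sum_congr rfl fun x _ => ?_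
    rw [integral_indicator_const _ (ev_meas R J ε x W), smul_eq_mul, mul_one]
  have hcard : ∀ η, f η = ((Ds R J (fun x => ε * η x) W ∩ T).card : ℝ) := by
    intro η
    have h1 : Ds R J (fun x => ε * η x) W ∩ T = T.filter (fun x => η ∈ ev R J ε x W) := by
      ext x
      rw [Finset.mem_inter, Finset.mem_filter]
      exact and_comm
    rw [h1, Finset.card_filter]
    push_cast
    refine Finset.sum_congr rfl fun x _ => ?_
    by_cases hx : η ∈ ev R J ε x W
    · rw [Set.indicator_of_mem hx, if_pos hx]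
    · rw [Set.indicator_of_notMem hx, if_neg hx]
  have hmk := mul_meas_ge_le_integral_of_nonneg (μ := gam) (f := fun η => (R : ℝ) * f η)
    (Filter.Eventually.of_forall fun η => mul_nonneg (Nat.cast_nonneg R) (hf0 η))
    (hf.const_mul (R : ℝ)) (u : ℝ)
  have hsub : {η : Site → ℝ | Crs R J (fun x => ε * η x) u v K' 0} ⊆
      {η | (u : ℝ) ≤ (R : ℝ) * f η} := by
    intro η hη
    have h1 := crs_card R J hJ (fun x => ε * η x) M K' u v hM hv hη T
      (fun x hx => by
        rw [hT, mem_tube']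
        push_cast
        exact hx)
    show (u : ℝ) ≤ (R : ℝ) * f η
    rw [hcard η]
    exact_mod_cast h1
  have h2 : pC R J ε u v K' ≤ gam.real {η | (u : ℝ) ≤ (R : ℝ) * f η} :=
    ENNReal.toReal_mono (measure_ne_top _ _) (measure_mono hsub)
  have h3 : ∀ x ∈ T, gam.real (ev R J ε x W) ≤ mag R J 0 ε L := by
    intro x hx
    rw [hMAG R J hJ ε hε L]
    have h4 : (box L).image (fun z => x + z) ⊆ W := by
      intro z hz
      rw [Finset.mem_image] at hz
      obtain ⟨w, hw, rfl⟩ := hz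
      rw [hT, mem_tube', near_iff (by positivity)] at hx
      rw [hW, mem_tube', near_iff (by positivity)]
      obtain ⟨t, ht0, ht1, ht⟩ := hx
      refine ⟨t, ht0, ht1, ?_⟩
      have hw1 : ‖cc w‖ ≤ 2 * L := by
        obtain ⟨ha, hb⟩ := mem_box'.1 hw
        have ha' : |(w.1 : ℝ)| ≤ L := by exact_mod_cast ha
        have hb' : |(w.2 : ℝ)| ≤ L := by exact_mod_cast hb
        have h5 : ‖cc w‖ ≤ |(cc w).re| + |(cc w).im| := Complex.norm_le_abs_re_add_abs_im _
        have h6 : (cc w).re = (w.1 : ℝ) := rfl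
        have h7 : (cc w).im = (w.2 : ℝ) := rfl
        rw [h6, h7] at h5
        linarith
      rw [cc_add]
      have e : cc x + cc w - (cc 0 + (t : ℂ) * (cc (0 + sm u v) - cc 0)) =
          (cc x - (cc 0 + (t : ℂ) * (cc (0 + sm u v) - cc 0))) + cc w := by ring
      rw [e]
      refine (norm_add_le _ _).trans ?_
      push_cast at ht ⊢
      linarith
    have h5 : ev R J ε x W ⊆ ev R J ε x ((box L).image fun z => x + z) := by
      intro η hη
      refine hDM R J hJ _ _ _ h4 (Finset.mem_inter.2 ⟨hη, ?_⟩)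
      rw [Finset.mem_image]
      refine ⟨0, ?_, add_zero x⟩
      rw [Pool.Agent.H11.RFC.mem_box]
      simp
    have h6 : gam.real (ev R J ε x W) ≤ gam.real (ev R J ε x ((box L).image fun z => x + z)) :=
      measureReal_mono h5
    refine h6.trans (le_of_eq ?_)
    show (gam (ev R J ε x ((box L).image fun z => x + z))).toReal = _
    rw [ev_trans hTRA hTRG R J ε x (box L)]
    rfl
  have h7 : ∫ η, (R : ℝ) * f η ∂gam ≤ R * (((T.card : ℕ) : ℝ) * mag R J 0 ε L) := by
    rw [integral_const_mul, hint]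
    refine mul_le_mul_of_nonneg_left ?_ (Nat.cast_nonneg R)
    refine (Finset.sum_le_sum h3).trans ?_
    rw [Finset.sum_const, nsmul_eq_mul]
  have h8 : (u : ℝ) * pC R J ε u v K' ≤ (u : ℝ) * gam.real {η | (u : ℝ) ≤ (R : ℝ) * f η} :=
    mul_le_mul_of_nonneg_left h2 (Nat.cast_nonneg u)
  exact h8.trans (hmk.trans h7)

/-- **Without exponential decay `L m(L)` tends to infinity.** -/
theorem pf_INV (hSTR : B_STRk) (hDM : Z_DM) (hMAG : Z_MAG) (hTRA : Z_TRA) (hTRG : T_TRG)
    (R : ℕ) (J : Site → ℝ) (hJ : IsCoupling R J) (ε : ℝ) (hε : 0 < ε)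
    (hne : ¬ ExpDecay R J 0 ε) (B : ℝ) :
    ∃ L₀ : ℕ, ∀ L : ℕ, L₀ ≤ L → B ≤ L * mag R J 0 ε L := by
  obtain ⟨φ, hφ, hφ1, hS⟩ := hSTR R J hJ ε hε hne
  obtain ⟨M, hM⟩ : ∃ M : ℕ, M = ⌈100 / φ⌉₊ + 10 := ⟨_, rfl⟩
  have hM1 : 100 / φ ≤ (M : ℝ) := by
    rw [hM]
    push_cast
    have := Nat.le_ceil (100 / φ)
    linarith
  have hM10 : 10 ≤ M := by omega
  -- the number of scales
  obtain ⟨κ, hκ⟩ : ∃ κ : ℕ, 2 * (R + 1) * (20 * (M : ℝ)) ^ 2 * |B| + 1 ≤ κ := exists_nat_ge _
  have hκ1 : (1 : ℝ) ≤ κ := by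
    have : 0 ≤ 2 * ((R : ℝ) + 1) * (20 * (M : ℝ)) ^ 2 * |B| := by positivity
    linarith
  have hκ0 : 0 < κ := by exact_mod_cast (lt_of_lt_of_le one_pos hκ1)
  obtain ⟨u₀, hu₀⟩ := hS M (4 * κ + 10) (1 / 2) hM1 hM10 (by omega) (by norm_num) (by norm_num)
  refine ⟨κ * (u₀ + 1), fun L hL => ?_⟩
  set u := L / κ with hu
  have hu1 : u₀ + 1 ≤ u := by
    rw [hu]
    exact (Nat.le_div_iff_mul_le hκ0).2 (by rw [mul_comm]; exact hL)
  obtain ⟨v, -, hv, -, -, hp, -⟩ := hu₀ u (by omega)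
  have hur : (1 : ℝ) ≤ u := by
    have : 1 ≤ u := by omega
    exact_mod_cast this
  have hL1 : (L : ℝ) ≤ 2 * κ * u := by
    have h1 : L < κ * (u + 1) := Nat.lt_mul_div_succ L hκ0
    have h2 : (L : ℝ) < κ * (u + 1) := by exact_mod_cast h1
    have h3 : (κ : ℝ) * (u + 1) ≤ κ * (2 * u) := mul_le_mul_of_nonneg_left (by linarith) (by linarith)
    linarith
  have hL2 : (κ : ℝ) * u ≤ L := by
    have h1 : κ * u ≤ L := Nat.mul_div_le L κ
    exact_mod_cast h1
  have h1 := one_tube hDM hMAG hTRA hTRG R J hJ ε hε.ne' M (4 * κ + 10) u L v hM10 hv (by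
    push_cast
    nlinarith)
  have hm0 : 0 ≤ mag R J 0 ε L := by
    rw [hMAG R J hJ ε hε.ne' L]
    exact ENNReal.toReal_nonneg
  have hMr : (10 : ℝ) ≤ M := by exact_mod_cast hM10
  -- the number of sites of the tube
  have hcard : ((tube 0 (0 + sm u v) (2 * u)).card : ℝ) ≤ (20 * (M : ℝ)) ^ 2 * (u : ℝ) ^ 2 := by
    have h2 : tube 0 (0 + sm u v) (2 * u) ⊆ box ((M + 4) * u) := by
      intro x hx
      rw [mem_tube', near_iff (by positivity)] at hx
      obtain ⟨t, ht0, ht1, ht⟩ := hx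
      have hv2 : ‖cc v‖ ≤ M + 2 := by
        obtain ⟨-, h3⟩ := hv
        have h4 : (nsq v : ℝ) ≤ ((M : ℝ) + 2) ^ 2 := by exact_mod_cast h3
        rw [nsq_eq] at h4
        exact (pow_le_pow_iff_left₀ (norm_nonneg _) (by positivity) two_ne_zero).1 h4
      have hc0 : cc 0 = 0 := by apply Complex.ext <;> simp [cc]
      have h5 : ‖cc x‖ ≤ (M + 4) * u := by
        have e : cc x = (cc x - (cc 0 + (t : ℂ) * (cc (0 + sm u v) - cc 0))) +
            (t : ℂ) * (((u : ℝ) : ℂ) * cc v) := by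
          rw [zero_add, hc0, cc_sm]
          ring
        rw [e]
        refine (norm_add_le _ _).trans ?_
        rw [norm_mul, norm_mul, Complex.norm_real, Complex.norm_real, Real.norm_eq_abs,
          Real.norm_eq_abs, abs_of_nonneg ht0, abs_of_nonneg (by linarith : (0 : ℝ) ≤ u)]
        push_cast at ht
        have h6 : t * (u * ‖cc v‖) ≤ 1 * (u * (M + 2)) :=
          mul_le_mul ht1 (mul_le_mul_of_nonneg_left hv2 (by linarith)) (by positivity) zero_le_one
        linarith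
      rw [mem_box']
      have h6 : (cc x).re = (x.1 : ℝ) := rfl
      have h7 : (cc x).im = (x.2 : ℝ) := rfl
      have h8 := (Complex.abs_re_le_norm (cc x)).trans h5
      have h9 := (Complex.abs_im_le_norm (cc x)).trans h5
      rw [h6] at h8
      rw [h7] at h9
      constructor
      · exact_mod_cast h8
      · exact_mod_cast h9
    have h3 : ((tube 0 (0 + sm u v) (2 * u)).card : ℝ) ≤ ((box ((M + 4) * u)).card : ℝ) := by
      exact_mod_cast Finset.card_le_card h2
    have h4 : ((box ((M + 4) * u)).card : ℝ) = (2 * ((M + 4) * u) + 1) ^ 2 := by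
      unfold box
      rw [Finset.card_product, Int.card_Icc]
      have e : (((((M + 4) * u : ℕ) : ℤ) + 1 - -(((M + 4) * u : ℕ) : ℤ)).toNat) =
          2 * ((M + 4) * u) + 1 := by omega
      rw [e]
      push_cast
      ring
    rw [h4] at h3
    refine h3.trans ?_
    rw [← mul_pow]
    refine pow_le_pow_left₀ (by positivity) ?_ 2
    nlinarith
  -- conclusion
  have h2 : (u : ℝ) * (1 / 2) ≤ (R : ℝ) * ((20 * (M : ℝ)) ^ 2 * (u : ℝ) ^ 2 * mag R J 0 ε L) := by
    have h3 : (u : ℝ) * (1 / 2) ≤ u * pC R J ε u v (4 * κ + 10) :=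
      mul_le_mul_of_nonneg_left (by linarith) (by linarith)
    refine h3.trans (h1.trans ?_)
    refine mul_le_mul_of_nonneg_left ?_ (Nat.cast_nonneg R)
    exact mul_le_mul_of_nonneg_right hcard hm0
  set c : ℝ := (R + 1) * (20 * (M : ℝ)) ^ 2 with hc
  have hc0 : 0 < c := by positivity
  have h3 : 1 ≤ 2 * c * (u * mag R J 0 ε L) := by
    have h4 : (u : ℝ) * 1 ≤ u * (2 * ((R : ℝ) * ((20 * (M : ℝ)) ^ 2 * (u * mag R J 0 ε L)))) := by
      nlinarith
    have h5 := le_of_mul_le_mul_left h4 (by linarith)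
    have h6 : (R : ℝ) * ((20 * (M : ℝ)) ^ 2 * (u * mag R J 0 ε L)) ≤
        c * (u * mag R J 0 ε L) := by
      rw [hc]
      have h7 : 0 ≤ (20 * (M : ℝ)) ^ 2 * (u * mag R J 0 ε L) := by positivity
      nlinarith
    linarith
  have h4 : (κ : ℝ) * (u * mag R J 0 ε L) ≤ L * mag R J 0 ε L := by
    rw [← mul_assoc]
    exact mul_le_mul_of_nonneg_right hL2 hm0
  have h5 : 2 * c * |B| ≤ κ := by
    have : 2 * ((R : ℝ) + 1) * (20 * (M : ℝ)) ^ 2 * |B| = 2 * c * |B| := by rw [hc]; ring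
    linarith
  have h6 : |B| * (2 * c * (u * mag R J 0 ε L)) ≤ (κ : ℝ) * (u * mag R J 0 ε L) := by
    have h7 : 0 ≤ u * mag R J 0 ε L := mul_nonneg (by linarith) hm0
    have h8 := mul_le_mul_of_nonneg_right h5 h7
    linarith
  have h7 : |B| ≤ |B| * (2 * c * (u * mag R J 0 ε L)) := le_mul_of_one_le_right (abs_nonneg B) h3
  exact (le_abs_self B).trans (h7.trans (h6.trans h4))

end Pool.Agent.H98.RFZ.Inv
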