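import Pool.Agent.H98.RFZ.Targets2b
import Pool.Agent.H20.RFZ.B2Mid
import Pool.Agent.H19.RFZ.B3

/-!
# Gain at a hard scale, with the condition `2 ≤ K'` (after helper19's row B3)
-/

set_option autoImplicit false

noncomputable section

open MeasureTheory ProbabilityTheory Filter Topology

namespace Pool.Agent.H98.RFZ

open Pool.Agent.H98.RFC Pool.Agent.H19.RFZ

theorem pf_B3k (hB1 : B_B1) (hB2 : Pool.Agent.H20.RFZ.B_B2k) (hBM : B_MEA) (hCM : C_MEA)
    (hIND : Z_IND) : B_B3k := by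
  intro R J hJ ε p a b a' b' α β θ κ φ δ A A' M K' n u v hp hα hαβ ha1 ha2 hb1 hb2 ha' hb' hθ hθ1
    hκ hκ1 hφ hφ1 hδ hδ1 hN1 hN2 hA hA1 hA2 hκ2 hM hM10 hK2 hn hu1 hu2 hv hHard
  have hA100 : 100 ≤ A' := by omega
  have hv0 : 0 < v := by omega
  have hu8 : 8 * v ≤ u := (Nat.mul_le_mul_right v hA).trans hu1
  have hu0 : 0 < u := by omega
  let Q : Site × Site → Prop := fun q => q.1 ∈ box (9 * A') ∧ q.2 ∈ box (9 * A') ∧
    ((A' : ℤ) - 2) ^ 2 ≤ nsq (q.2 - q.1)
  have hT : ∀ q : Site × Site, Q q → _ := fun q hq =>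
    hB2 R J hJ φ p M K' n A' u hφ hφ1 hp hM hM10 hK2 hn (by omega) q.1 q.2 hq.1 hq.2.1 hq.2.2
  choose y w hw1 hw2 hw3 using hT
  let E : Site × Site → Set (Site → ℝ) := fun q => {η | ∃ hq : Q q, ∀ m,
    φ * |(gdot p (w q hq m) : ℝ)| ≤ |(fdet p (w q hq m) : ℝ)| ∧
      Crs R J (fun x => ε * η x) u (w q hq m) K' (y q hq m)}
  have hE : ∀ q, (gam (E q)).toReal ≤ (1 - δ) ^ n := by
    intro q
    have h0 : 0 ≤ (1 - δ) ^ n := pow_nonneg (by linarith) n
    by_cases hq : Q q
    · by_cases hm : ∀ m, φ * |(gdot p (w q hq m) : ℝ)| ≤ |(fdet p (w q hq m) : ℝ)|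
      · have h1 : E q ⊆ ⋂ m, {η | Crs R J (fun x => ε * η x) u (w q hq m) K' (y q hq m)} := by
          rintro η ⟨hq', h2⟩
          exact Set.mem_iInter.2 fun m => (h2 m).2
        have h2 := hIND n (fun m => tube (y q hq m) (y q hq m + sm u (w q hq m)) (K' * u))
          (fun m => {η | Crs R J (fun x => ε * η x) u (w q hq m) K' (y q hq m)})
          (fun m m' hmm => hw2 q hq m m' hmm)
          (fun m => (hCM R J hJ ε u (w q hq m) K' (y q hq m)).1)
          (fun m η η' h => (hCM R J hJ ε u (w q hq m) K' (y q hq m)).2.1 η η' h)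
        calc (gam (E q)).toReal ≤ (gam (⋂ m, {η | Crs R J (fun x => ε * η x) u (w q hq m) K'
              (y q hq m)})).toReal := ENNReal.toReal_mono (measure_ne_top _ _) (measure_mono h1)
          _ = ∏ m : Fin n, (gam {η | Crs R J (fun x => ε * η x) u (w q hq m) K'
              (y q hq m)}).toReal := by rw [h2, ENNReal.toReal_prod]
          _ ≤ ∏ m : Fin n, (1 - δ) := by
              refine Finset.prod_le_prod (fun m _ => ENNReal.toReal_nonneg) fun m _ => ?_
              rw [(hCM R J hJ ε u (w q hq m) K' (y q hq m)).2.2]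
              exact hHard (w q hq m) (hw1 q hq m) (hm m)
          _ = (1 - δ) ^ n := by rw [Finset.prod_const, Finset.card_univ, Fintype.card_fin]
      · have h1 : E q = ∅ := by
          rw [Set.eq_empty_iff_forall_notMem]
          rintro η ⟨hq', h2⟩
          exact hm fun m => (h2 m).1
        rw [h1, measure_empty]
        exact h0
    · have h1 : E q = ∅ := by
        rw [Set.eq_empty_iff_forall_notMem]
        rintro η ⟨hq', -⟩
        exact hq hq'
      rw [h1, measure_empty]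
      exact h0
  have hsub : {η : Site → ℝ | BadN R J (fun x => ε * η x) (Nq p a' b') (A' * u) 0} ⊆
      (⋃ z ∈ box (18 * A * A'), {η : Site → ℝ | BadN R J (fun x => ε * η x) (Nq p a b) v
        (sm v z)}) ∪ ⋃ q ∈ box (9 * A') ×ˢ box (9 * A'), E q := by
    intro η hη
    by_cases h1 : ∀ z : Site, sm v z ∈ eb 0 (9 * (A' * u)) →
        ¬ BadN R J (fun x => ε * η x) (Nq p a b) v (sm v z)
    · right
      obtain ⟨k, x, hx1, hx2, hx3, hx4, hx5⟩ := hη
      obtain ⟨h2, h3⟩ := hB1 R J hJ (fun x => ε * η x) p a b a' b' α β θ κ (2 * φ) A A' u v hp hα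
        hαβ ha1 ha2 hb1 hb2 ha' hb' hθ hθ1 hκ hκ1 (by linarith) hN1 hN2 hA (by omega) hA1 hA2 hκ2
        hu1 (by omega) h1 k x hx1 hx2 hx3 hx4 hx5
      obtain ⟨P, hP1, hP2, hP3, hP4⟩ := rnd2 u A' hu0 (by omega) (x 0) (hx2 0 (Nat.zero_le k))
      obtain ⟨P', hP1', hP2', hP3', hP4'⟩ := rnd2 u A' hu0 (by omega) (x k) (hx2 k le_rfl)
      have hlong : ((A' : ℤ) - 2) ^ 2 ≤ nsq (P' - P) := by
        have hu' : (0 : ℤ) < u := by exact_mod_cast hu0
        have h5 := hx4
        unfold nsq at h5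
        simp only [Prod.fst_sub, Prod.snd_sub] at h5
        push_cast at h5
        unfold nsq
        simp only [Prod.fst_sub, Prod.snd_sub]
        refine long u A' hu' (by exact_mod_cast hA100) ((x k).1 - (x 0).1) ((x k).2 - (x 0).2)
          (P'.1 - P.1) (P'.2 - P.2) ?_ ?_ ?_ ?_ h5
        · rw [mul_sub]; linarith [hP3.1, hP3.2, hP3'.1, hP3'.2]
        · rw [mul_sub]; linarith [hP3.1, hP3.2, hP3'.1, hP3'.2]
        · rw [mul_sub]; linarith [hP4.1, hP4.2, hP4'.1, hP4'.2]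
        · rw [mul_sub]; linarith [hP4.1, hP4.2, hP4'.1, hP4'.2]
      have hq : Q (P, P') := ⟨hP1, hP1', hlong⟩
      have h6 := hw3 (P, P') hq (fun x => ε * η x) k x hx1 hx2 hx4 hP2 hP2' h3 h2
      refine Set.mem_iUnion₂.2 ⟨(P, P'), Finset.mem_product.2 ⟨hP1, hP1'⟩, hq, fun m => ?_⟩
      exact ⟨h6.1 m, h6.2 m⟩
    · left
      push Not at h1
      obtain ⟨z, hz1, hz2⟩ := h1
      refine Set.mem_iUnion₂.2 ⟨z, ?_, hz2⟩
      obtain ⟨⟨h5, h6⟩, h7, h8⟩ := bd_eb hz1
      unfold sm at h5 h6 h7 h8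
      simp only at h5 h6 h7 h8
      push_cast at h5 h6 h7 h8
      have hv' : (0 : ℤ) < v := by exact_mod_cast hv0
      have hA0 : (0 : ℤ) ≤ A' := by positivity
      have hu' : (u : ℤ) ≤ 2 * A * v := by exact_mod_cast hu2
      have h9 : (A' : ℤ) * u ≤ A' * (2 * A * v) := mul_le_mul_of_nonneg_left hu' hA0
      have key : ∀ t : ℤ, -(9 * (A' * (u : ℤ))) ≤ v * t → v * t ≤ 9 * (A' * (u : ℤ)) →
          -(18 * (A : ℤ) * A') ≤ t ∧ t ≤ 18 * A * A' := by
        intro t g1 g2
        constructor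
        · by_contra hc
          push Not at hc
          have : v * t ≤ v * (-(18 * (A : ℤ) * A') - 1) :=
            mul_le_mul_of_nonneg_left (by omega) hv'.le
          nlinarith
        · by_contra hc
          push Not at hc
          have : v * (18 * (A : ℤ) * A' + 1) ≤ v * t :=
            mul_le_mul_of_nonneg_left (by omega) hv'.le
          nlinarith
      rw [mem_box]
      push_cast
      exact ⟨key z.1 h5 h6, key z.2 h7 h8⟩
  have hpB : 0 ≤ pB R J ε (Nq p a b) v := ENNReal.toReal_nonneg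
  have h1 : pB R J ε (Nq p a' b') (A' * u) ≤
      gam.real (⋃ z ∈ box (18 * A * A'), {η : Site → ℝ | BadN R J (fun x => ε * η x) (Nq p a b) v
        (sm v z)}) + gam.real (⋃ q ∈ box (9 * A') ×ˢ box (9 * A'), E q) :=
    (measureReal_mono hsub).trans (measureReal_union_le _ _)
  have h2 : gam.real (⋃ z ∈ box (18 * A * A'), {η : Site → ℝ | BadN R J (fun x => ε * η x)
      (Nq p a b) v (sm v z)}) ≤ (40 * (A : ℝ) * A') ^ 2 * pB R J ε (Nq p a b) v := by
    refine (measureReal_biUnion_finset_le _ _).trans ?_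
    have h2' : ∀ z ∈ box (18 * A * A'), gam.real {η : Site → ℝ | BadN R J (fun x => ε * η x)
        (Nq p a b) v (sm v z)} = pB R J ε (Nq p a b) v :=
      fun z _ => (hBM R J hJ ε (Nq p a b) v (sm v z)).2.2
    rw [Finset.sum_congr rfl h2', Finset.sum_const, card_box, nsmul_eq_mul]
    refine mul_le_mul_of_nonneg_right ?_ hpB
    push_cast
    have hAA : (1 : ℝ) ≤ A * A' := by
      have h3 : (1 : ℝ) ≤ A := by exact_mod_cast (by omega : 1 ≤ A)
      have h4 : (1 : ℝ) ≤ A' := by exact_mod_cast (by omega : 1 ≤ A')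
      nlinarith
    refine pow_le_pow_left₀ (by positivity) ?_ 2
    nlinarith
  have h3 : gam.real (⋃ q ∈ box (9 * A') ×ˢ box (9 * A'), E q) ≤
      (20 * (A' : ℝ)) ^ 4 * (1 - δ) ^ n := by
    refine (measureReal_biUnion_finset_le _ _).trans ?_
    refine (Finset.sum_le_sum fun q _ => hE q).trans ?_
    rw [Finset.sum_const, Finset.card_product, card_box, nsmul_eq_mul]
    refine mul_le_mul_of_nonneg_right ?_ (pow_nonneg (by linarith) n)
    push_cast
    have h4 : (1 : ℝ) ≤ A' := by exact_mod_cast (by omega : 1 ≤ A')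
    rw [← pow_add]
    refine pow_le_pow_left₀ (by positivity) ?_ 4
    linarith
  linarith

end Pool.Agent.H98.RFZ
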