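import Pool.Agent.H98.RFC.Defs

/-!
# The random field Ising model at zero temperature: definitions for the board `rfz_modules`

`Ds` is the disagreement set: plus in the largest ground state with plus boundary, minus in the
smallest ground state with minus boundary.
-/

set_option autoImplicit false

noncomputable section

open MeasureTheory ProbabilityTheory

namespace Pool.Agent.H98.RFZ

open Pool.Agent.H98.RFC

open Classical in
/-- The union of all ground states. -/
def gp (R : ℕ) (J h : Site → ℝ) (Λ : Finset Site) (B : Set Site) : Finset Site :=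
  Λ.filter (fun x => ∃ S ∈ gs R J h Λ B, x ∈ S)

open Classical in
/-- The intersection of all ground states. -/
def gn (R : ℕ) (J h : Site → ℝ) (Λ : Finset Site) (B : Set Site) : Finset Site :=
  Λ.filter (fun x => ∀ S ∈ gs R J h Λ B, x ∈ S)

/-- The disagreement set of the domain `Λ`. -/
def Ds (R : ℕ) (J h : Site → ℝ) (Λ : Finset Site) : Finset Site :=
  gp R J h Λ (↑Λ)ᶜ \ gn R J h Λ ∅

/-- Minimal energy in `Λ` if the sites of `V` and the sites outside `Λ` are frozen, plus
exactly on `B`. -/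
def em (R : ℕ) (J h : Site → ℝ) (Λ V : Finset Site) (B : Set Site) : ℝ :=
  (Λ \ V).powerset.inf' ⟨∅, Finset.empty_mem_powerset _⟩ (fun S => en R J h Λ (↑S ∪ B))

/-- Surface tension between `V` and the complement of `Λ`. -/
def ten (R : ℕ) (J h : Site → ℝ) (V Λ : Finset Site) : ℝ :=
  em R J h Λ V (↑Λ)ᶜ + em R J h Λ V ↑V - em R J h Λ V ((↑Λ)ᶜ ∪ ↑V) - em R J h Λ V ∅

/-- Total coupling. -/
def Jt (R : ℕ) (J : Site → ℝ) : ℝ := ∑ z ∈ box R, J z

open Classical in
/-- Capacity of the cut `(U, complement of U)` through the set `D`. -/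
def cap (R : ℕ) (J : Site → ℝ) (D : Set Site) (U : Finset Site) : ℝ :=
  ∑ a ∈ U, ∑ b ∈ hull R U \ U, (if a ∈ D ∧ b ∈ D then J (a - b) else 0)

/-- The field `η` shifted by `s` on `V`. -/
def shf (V : Finset Site) (s : ℝ) (η : Site → ℝ) : Site → ℝ :=
  fun x => η x + if x ∈ V then s else 0

/-- `x 0, …, x k` is a path of sites of `D` with steps along bonds of `J`. -/
def IsPath (J : Site → ℝ) (D : Finset Site) (k : ℕ) (x : ℕ → Site) : Prop :=
  (∀ i, i ≤ k → x i ∈ D) ∧ ∀ i, i < k → 0 < J (x (i + 1) - x i)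

/-! ### Geometry -/

/-- Squared Euclidean norm. -/
def nsq (x : Site) : ℤ := x.1 ^ 2 + x.2 ^ 2

/-- Euclidean norm. -/
def nrm (x : Site) : ℝ := Real.sqrt (nsq x : ℝ)

/-- Euclidean ball of integer radius `r` around `z`. -/
def eb (z : Site) (r : ℕ) : Finset Site := (bx z r).filter (fun x => nsq (x - z) ≤ (r : ℤ) ^ 2)

/-- Determinant. -/
def fdet (p x : Site) : ℤ := p.1 * x.2 - p.2 * x.1

/-- Scalar product. -/
def gdot (p x : Site) : ℤ := p.1 * x.1 + p.2 * x.2

open Classical in
/-- Rectangle with half sides `K w` in the direction `p` and `w` orthogonal to it. -/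
def rect (p : Site) (K w : ℝ) : Finset Site :=
  (box ⌈(1 + K) * w⌉₊).filter
    (fun x => |(fdet p x : ℝ)| ≤ w * nrm p ∧ |(gdot p x : ℝ)| ≤ K * w * nrm p)

/-- Probability that `0` is in the disagreement set of `rect p K w`. -/
def mK (R : ℕ) (J : Site → ℝ) (ε : ℝ) (p : Site) (K w : ℝ) : ℝ :=
  (gam {η | (0 : Site) ∈ Ds R J (fun x => ε * η x) (rect p K w)}).toReal

/-- Short path event: the disagreement set of the annulus `rect (4w) \ rect w` contains a path of
less than `K w` steps, inside `|gdot| ≤ 3 K w`, from `|fdet| ≤ 2 w` to `|fdet| ≥ 3 w`. -/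
def SP (R : ℕ) (J h : Site → ℝ) (p : Site) (K w : ℝ) : Prop :=
  ∃ (k : ℕ) (x : ℕ → Site), IsPath J (Ds R J h (rect p K (4 * w) \ rect p K w)) k x ∧
    (∀ i, i ≤ k → |(gdot p (x i) : ℝ)| ≤ 3 * K * w * nrm p) ∧
    |(fdet p (x 0) : ℝ)| ≤ 2 * w * nrm p ∧ 3 * w * nrm p ≤ |(fdet p (x k) : ℝ)| ∧
    (k : ℝ) < K * w

end Pool.Agent.H98.RFZ
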