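import Pool.Agent.H98.RFZ.Lin
import Pool.Agent.H67.RFZ.Mag
import Pool.Agent.H98.RFZ.Targets3

/-!
# Linear changes of coordinates (temperature zero): exponential decay
-/

set_option autoImplicit false

noncomputable section

open MeasureTheory ProbabilityTheory Filter Topology

namespace Pool.Agent.H98.RFZ.Lin

open Pool.Agent.H98.RFC Pool.Agent.H98.RFZ

theorem mag_lin (hMAG : Z_MAG) (hDM : Z_DM) (A : Site ≃+ Site) (R R' : ℕ) (J J' : Site → ℝ)
    (hJ : IsCoupling R J) (hJ' : IsCoupling R' J') (hJJ : ∀ z, J' z = J (A z)) (ε : ℝ)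
    (hε : ε ≠ 0) (L L' : ℕ) (hL : ∀ x, x ∈ box L' → A x ∈ box L) :
    mag R J 0 ε L ≤ mag R' J' 0 ε L' := by
  have hprob : IsProbabilityMeasure gam := by unfold gam; infer_instance
  rw [hMAG R J hJ ε hε L, hMAG R' J' hJ' ε hε L']
  have hsub : im A (box L') ⊆ box L := by
    intro z hz
    obtain ⟨x, rfl⟩ := A.surjective z
    exact hL x ((mem_im A _ x).1 hz)
  have h0 : (0 : Site) ∈ im A (box L') := by
    have h1 : (0 : Site) ∈ box L' := by
      rw [Pool.Agent.H11.RFC.mem_box]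
      simp
    have h2 := (mem_im A _ 0).2 h1
    rwa [map_zero] at h2
  have hmeas : MeasurableSet {η : Site → ℝ | (0 : Site) ∈ Ds R' J' (fun x => ε * η x) (box L')} := by
    have h1 : Measurable (fun (η : Site → ℝ) (x : Site) => ε * η x) := by
      refine measurable_pi_lambda _ fun x => ?_
      refine Measurable.const_mul ?_ ε
      exact measurable_pi_apply x
    exact h1 (Pool.Agent.H67.RFZ.mem_Ds_meas R' J' (box L') 0)
  have hm : Measurable (fun (η : Site → ℝ) (x : Site) => η (A x)) :=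
    measurable_pi_lambda _ fun x => measurable_pi_apply (A x)
  have hg : gam.map (fun (η : Site → ℝ) (x : Site) => η (A x)) = gam := gam_perm A.toEquiv
  have h5 : gam {η : Site → ℝ | (0 : Site) ∈ Ds R' J' (fun x => ε * η x) (box L')} =
      gam ((fun (η : Site → ℝ) (x : Site) => η (A x)) ⁻¹'
        {η : Site → ℝ | (0 : Site) ∈ Ds R' J' (fun x => ε * η x) (box L')}) := by
    rw [← Measure.map_apply hm hmeas, hg]
  have h6 : ((fun (η : Site → ℝ) (x : Site) => η (A x)) ⁻¹'
        {η : Site → ℝ | (0 : Site) ∈ Ds R' J' (fun x => ε * η x) (box L')}) =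
      {η : Site → ℝ | (0 : Site) ∈ Ds R J (fun x => ε * η x) (im A (box L'))} := by
    ext η
    have h4 := Ds_lin A R R' J J' (fun x => ε * η x) hJ.range hJ'.range hJJ (box L') 0
    rw [map_zero] at h4
    exact h4.symm
  have h3 : gam {η : Site → ℝ | (0 : Site) ∈ Ds R' J' (fun x => ε * η x) (box L')} =
      gam {η : Site → ℝ | (0 : Site) ∈ Ds R J (fun x => ε * η x) (im A (box L'))} := by
    rw [h5, h6]
  rw [h3]
  refine ENNReal.toReal_mono (measure_ne_top _ _) (measure_mono fun η hη => ?_)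
  exact hDM R J hJ _ _ _ hsub (Finset.mem_inter.2 ⟨hη, h0⟩)

theorem exp_lin (hMAG : Z_MAG) (hDM : Z_DM) (A : Site ≃+ Site) (R R' : ℕ) (J J' : Site → ℝ)
    (hJ : IsCoupling R J) (hJ' : IsCoupling R' J') (hJJ : ∀ z, J' z = J (A z)) (ε : ℝ)
    (hε : ε ≠ 0) (k : ℕ) (hk : 1 ≤ k) (hL : ∀ L x, x ∈ box L → A x ∈ box (k * L))
    (h : ExpDecay R' J' 0 ε) : ExpDecay R J 0 ε := by
  have hprob : IsProbabilityMeasure gam := by unfold gam; infer_instance
  obtain ⟨C, hC, c, hc, hb⟩ := h
  have hk0 : (0 : ℝ) < k := by exact_mod_cast hk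
  refine ⟨(C + 1) * Real.exp c, by positivity, c / k, by positivity, ?_⟩
  intro L hL1
  have hLr : (L : ℝ) < k * ((L / k : ℕ) + 1 : ℝ) := by
    have h1 := Nat.lt_mul_div_succ L (show 0 < k by omega)
    exact_mod_cast h1
  have hexp : Real.exp (-(c * ((L / k : ℕ) : ℝ))) ≤ Real.exp c * Real.exp (-(c / k * L)) := by
    rw [← Real.exp_add]
    refine Real.exp_le_exp.2 ?_
    have h2 : c / k * L ≤ c * (((L / k : ℕ) : ℝ) + 1) := by
      have h3 : c / k * L ≤ c / k * (k * ((L / k : ℕ) + 1 : ℝ)) :=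
        mul_le_mul_of_nonneg_left hLr.le (by positivity)
      have h4 : c / k * (k * ((L / k : ℕ) + 1 : ℝ)) = c * (((L / k : ℕ) : ℝ) + 1) := by
        field_simp
      linarith
    linarith
  have hpos : 0 ≤ Real.exp c * Real.exp (-(c / k * L)) := by positivity
  rcases Nat.eq_zero_or_pos (L / k) with h0 | h0
  · have h1 : mag R J 0 ε L ≤ 1 := by
      rw [hMAG R J hJ ε hε L]
      have h2 := prob_le_one (μ := gam)
        (s := {η | (0 : Site) ∈ Ds R J (fun x => ε * η x) (box L)})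
      exact ENNReal.toReal_mono ENNReal.one_ne_top h2
    rw [h0] at hexp
    simp only [Nat.cast_zero, mul_zero, neg_zero, Real.exp_zero] at hexp
    have h2 : (C + 1) * Real.exp c * Real.exp (-(c / k * L)) =
        (C + 1) * (Real.exp c * Real.exp (-(c / k * L))) := by ring
    rw [h2]
    nlinarith
  · have h1 : mag R J 0 ε L ≤ mag R' J' 0 ε (L / k) := by
      refine mag_lin hMAG hDM A R R' J J' hJ hJ' hJJ ε hε L (L / k) fun x hx => ?_
      have h2 := hL (L / k) x hx
      rw [Pool.Agent.H11.RFC.mem_box] at h2 ⊢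
      have h3 : k * (L / k) ≤ L := Nat.mul_div_le L k
      have h4 : ((k * (L / k) : ℕ) : ℤ) ≤ (L : ℤ) := by exact_mod_cast h3
      obtain ⟨⟨a, b⟩, c', d⟩ := h2
      refine ⟨⟨?_, ?_⟩, ?_, ?_⟩ <;> linarith
    have h2 := hb (L / k) h0
    have h3 : (C + 1) * Real.exp c * Real.exp (-(c / k * L)) =
        (C + 1) * (Real.exp c * Real.exp (-(c / k * L))) := by ring
    rw [h3]
    have h4 : C * Real.exp (-(c * ((L / k : ℕ) : ℝ))) ≤
        C * (Real.exp c * Real.exp (-(c / k * L))) := mul_le_mul_of_nonneg_left hexp hC.le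
    linarith

/-- Planar couplings: supported on `0, ±a, ±b, ±(a+b)` for a basis `a, b` of `ℤ²`. -/
def Planar (J : Site → ℝ) : Prop :=
  ∃ a b : Site, (a.1 * b.2 - a.2 * b.1 = 1 ∨ a.1 * b.2 - a.2 * b.1 = -1) ∧
    ∀ z, J z ≠ 0 → z = 0 ∨ z = a ∨ z = -a ∨ z = b ∨ z = -b ∨ z = a + b ∨ z = -(a + b)

/-- The automorphism with columns `a`, `b`. -/
def au (a b : Site) (d : ℤ) (hd : a.1 * b.2 - a.2 * b.1 = d) (hd2 : d * d = 1) : Site ≃+ Site where
  toFun x := (x.1 * a.1 + x.2 * b.1, x.1 * a.2 + x.2 * b.2)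
  invFun x := (d * (x.1 * b.2 - x.2 * b.1), d * (x.2 * a.1 - x.1 * a.2))
  left_inv x := by
    ext
    · simp only
      linear_combination (x.1 * d) * hd + x.1 * hd2
    · simp only
      linear_combination (x.2 * d) * hd + x.2 * hd2
  right_inv x := by
    ext
    · simp only
      linear_combination (x.1 * d) * hd + x.1 * hd2
    · simp only
      linear_combination (x.2 * d) * hd + x.2 * hd2
  map_add' x y := by
    ext
    · simp only [Prod.fst_add, Prod.snd_add]
      ring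
    · simp only [Prod.fst_add, Prod.snd_add]
      ring

theorem pf_LIN (hMAG : Z_MAG) (hDM : Z_DM) (hALL : Q_ALL) (R : ℕ) (J : Site → ℝ)
    (hJ : IsCoupling R J) (hP : Planar J) (ε : ℝ) (hε : 0 < ε) : ExpDecay R J 0 ε := by
  obtain ⟨a, b, hdet, hsup⟩ := hP
  obtain ⟨d, hd, hd2⟩ : ∃ d : ℤ, a.1 * b.2 - a.2 * b.1 = d ∧ d * d = 1 := by
    rcases hdet with h | h
    · exact ⟨1, h, by norm_num⟩
    · exact ⟨-1, h, by norm_num⟩
  obtain ⟨A, hA⟩ : ∃ A : Site ≃+ Site, ∀ x : Site, A x =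
      (x.1 * a.1 + x.2 * b.1, x.1 * a.2 + x.2 * b.2) := ⟨au a b d hd hd2, fun x => rfl⟩
  have hTri : ∀ z, J (A z) ≠ 0 → Tri z := by
    intro z hz
    have h0 : A (0, 0) = 0 := by rw [hA]; ext <;> simp
    have h1 : A (1, 0) = a := by rw [hA]; ext <;> simp
    have h2 : A (-1, 0) = -a := by rw [hA]; ext <;> simp
    have h3 : A (0, 1) = b := by rw [hA]; ext <;> simp
    have h4 : A (0, -1) = -b := by rw [hA]; ext <;> simp
    have h5 : A (1, 1) = a + b := by rw [hA]; ext <;> simp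
    have h6 : A (-1, -1) = -(a + b) := by
      rw [hA]
      ext
      · simp only [Prod.fst_neg, Prod.fst_add]
        ring
      · simp only [Prod.snd_neg, Prod.snd_add]
        ring
    unfold Tri
    rcases hsup _ hz with h | h | h | h | h | h | h
    · exact Or.inl (A.injective (h.trans h0.symm))
    · exact Or.inr (Or.inl (A.injective (h.trans h1.symm)))
    · exact Or.inr (Or.inr (Or.inl (A.injective (h.trans h2.symm))))
    · exact Or.inr (Or.inr (Or.inr (Or.inl (A.injective (h.trans h3.symm)))))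
    · exact Or.inr (Or.inr (Or.inr (Or.inr (Or.inl (A.injective (h.trans h4.symm))))))
    · exact Or.inr (Or.inr (Or.inr (Or.inr (Or.inr (Or.inl (A.injective (h.trans h5.symm)))))))
    · exact Or.inr (Or.inr (Or.inr (Or.inr (Or.inr (Or.inr (A.injective (h.trans h6.symm)))))))
  have hJ' : IsCoupling 1 (fun z => J (A z)) := by
    refine ⟨fun z => hJ.nonneg _, fun z => ?_, fun z hz => ?_⟩
    · rw [map_neg, hJ.even]
    · by_contra hne
      apply hz
      rw [Pool.Agent.H11.RFC.mem_box]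
      rcases hTri z hne with h | h | h | h | h | h | h <;> rw [h] <;> simp
  have hIs : IsTri (fun z => J (A z)) := hTri
  refine exp_lin hMAG hDM A R 1 J (fun z => J (A z)) hJ hJ' (fun z => rfl) ε hε.ne'
    (a.1.natAbs + b.1.natAbs + a.2.natAbs + b.2.natAbs + 1) (by omega) ?_
    (hALL 1 _ hJ' hIs ε hε)
  intro L x hx
  rw [hA]
  rw [Pool.Agent.H11.RFC.mem_box] at hx ⊢
  obtain ⟨⟨h1, h2⟩, h3, h4⟩ := hx
  have hx1 : |x.1| ≤ L := abs_le.2 ⟨h1, h2⟩
  have hx2 : |x.2| ≤ L := abs_le.2 ⟨h3, h4⟩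
  have key : ∀ s t : ℤ, |x.1 * s + x.2 * t| ≤ (|s| + |t|) * L := by
    intro s t
    refine (abs_add_le _ _).trans ?_
    rw [abs_mul, abs_mul]
    have e1 := mul_le_mul_of_nonneg_right hx1 (abs_nonneg s)
    have e2 := mul_le_mul_of_nonneg_right hx2 (abs_nonneg t)
    linarith
  have hL0 : (0 : ℤ) ≤ L := by positivity
  push_cast
  rw [← abs_le, ← abs_le]
  constructor
  · refine (key a.1 b.1).trans (mul_le_mul_of_nonneg_right ?_ hL0)
    have := abs_nonneg a.2
    have := abs_nonneg b.2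
    linarith
  · refine (key a.2 b.2).trans (mul_le_mul_of_nonneg_right ?_ hL0)
    have := abs_nonneg a.1
    have := abs_nonneg b.1
    linarith

end Pool.Agent.H98.RFZ.Lin
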