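import Pool.Agent.H98.RFZ.Final1
import Pool.Agent.H98.RFZ.Lin2
import Pool.Agent.H80.RFZ.STEPk
import Pool.Agent.H20.RFZ.QALL
import Pool.Agent.H20.RFZ.QCZ
import Pool.Agent.H65.RFZ.QCHB
import Pool.Agent.H65.RFZ.QLAY
import Pool.Agent.H65.RFZ.QLOW
import Pool.Agent.H65.RFZ.QPAR
import Pool.Agent.H65.RFZ.QSHD
import Pool.Agent.H65.RFZ.QUPG
import Pool.Agent.H11.RFZ.QFIN
import Pool.Agent.H11.RFZ.QINT
import Pool.Agent.H19.RFZ.QPOS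
import Pool.Agent.H2.RFZ.QPRC
import Pool.Agent.H2.RFZ.QTEN
import Pool.Agent.H2.RFZ.QUP
import Pool.Agent.H10.RFZ.RNG

/-! # Assembly of the board `rfz_modules` -/

set_option autoImplicit false

namespace Pool.Agent.H98.RFZ

open Pool.Agent.H98.RFC

theorem f_STEPk : B_STEPk := Pool.Agent.H80.RFZ.pf_STEPk f_B3k f_PAR f_AA f_NQ

theorem f_INDk : B_INDk := pf_INDUk f_STEPk f_BASE f_NQ f_BMEA

/-- The structure theorem. -/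
theorem f_STRk : B_STRk := pf_STRk f_INDk f_SP f_END pf_all

theorem f_GL : Z_GL := Pool.Agent.H65.RFZ.GP.pf_GL f_GP

theorem f_CZ : Q_CZ := Pool.Agent.H20.RFZ.pf_QCZ f_MEA f_LOC f_TRA f_TRG

theorem f_RNG : Q_RNG := Pool.Agent.H10.RFZ.pf_RNG Pool.Agent.H65.RFZ.QPAR.pf_QPAR

theorem f_SHD : Q_SHD := Pool.Agent.H65.RFZ.QSHD.pf_QSHD f_DM f_GP f_CMEA f_MEA

theorem f_UPG : Q_UPG := Pool.Agent.H65.RFZ.QUPG.pf_QUPG f_SH f_DM

theorem f_QTEN : Q_TEN := Pool.Agent.H2.RFZ.pf_QTEN f_CUT f_DM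

theorem f_UP : Q_UP := Pool.Agent.H2.RFZ.pf_QUP f_QTEN Pool.Agent.H2.RFZ.pf_QPRC f_CZ f_IND f_TEN

theorem f_LOW : Q_LOW := Pool.Agent.H65.RFZ.QLOW.pf_QLOW f_UPG f_CZ
  Pool.Agent.H65.RFZ.QLAY.pf_QLAY Pool.Agent.H65.RFZ.QCHB.pf_QCHB f_GL f_IND f_MEA

theorem f_INT : Q_INT := Pool.Agent.H11.RFZ.pf_QINT f_AP f_MEA f_TEN

/-- Exponential decay at temperature zero for couplings on the triangular lattice. -/
theorem f_ALL : Q_ALL := Pool.Agent.H20.RFZ.pf_QALL f_STRk f_RNG f_SHD f_CZ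
  (Pool.Agent.H19.RFZ.pf_QPOS f_DM) f_UP Pool.Agent.H65.RFZ.QCHB.pf_QTYP f_LOW f_INT pf_all f_TEN

theorem f_FIN : Q_FIN := Pool.Agent.H11.RFZ.pf_QFIN f_ALL pf_all

/-- Exponential decay at temperature zero for all planar couplings. -/
theorem f_LIN (R : ℕ) (J : Site → ℝ) (hJ : IsCoupling R J) (hP : Lin.Planar J) (ε : ℝ)
    (hε : 0 < ε) : ExpDecay R J 0 ε :=
  Lin.pf_LIN f_MAG f_DM f_ALL R J hJ hP ε hε

end Pool.Agent.H98.RFZ
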