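import Pool.Agent.H98.RFZ.Targets2b
import Pool.Agent.H11.RFZ.INDU

/-!
# The induction over hard scales, with the condition `2 ≤ K'` (after helper11's row INDU)
-/

set_option autoImplicit false

noncomputable section

open MeasureTheory ProbabilityTheory Filter Topology

namespace Pool.Agent.H98.RFZ

open Pool.Agent.H98.RFC Pool.Agent.H11.RFZ

theorem pf_INDUk (hSTEP : B_STEPk) (hBASE : B_BASE) (hNQ : B_NQ) (_hMEA : B_MEA) : B_INDk := by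
  intro R J hJ hR ε l hl
  have hR1 : (1 : ℝ) ≤ (R : ℝ) := by exact_mod_cast hR
  have hR0 : (0 : ℝ) < (R : ℝ) := by linarith
  have hl0 : 0 < l := by linarith
  obtain ⟨G, hG⟩ : ∃ G : ℝ, G = 16 * (R : ℝ) ^ 2 * l ^ 2 := ⟨_, rfl⟩
  have hRl : 1 ≤ (R : ℝ) ^ 2 * l ^ 2 := by
    have h1 : (1 : ℝ) ≤ (R : ℝ) ^ 2 := one_le_pow₀ hR1
    have h2 : (1 : ℝ) ≤ l ^ 2 := one_le_pow₀ hl
    nlinarith
  have hG1 : 1 ≤ G := by rw [hG]; nlinarith
  have hG0 : 0 < G := by linarith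
  obtain ⟨φ, hφ⟩ : ∃ φ : ℝ, φ = 1 / (12 * R * l * (G + 1)) := ⟨_, rfl⟩
  have hden : 0 < 12 * (R : ℝ) * l * (G + 1) := by positivity
  have hφ0 : 0 < φ := by rw [hφ]; positivity
  have hφ1 : φ ≤ 1 := by
    rw [hφ, div_le_one hden]
    have h1 : 1 ≤ (R : ℝ) * l := by nlinarith
    nlinarith
  refine ⟨φ, hφ0, hφ1, ?_⟩
  intro p M K' δ hp hM1 hM2 hK2 hδ0 hδ1 hhard
  obtain ⟨α, hα⟩ : ∃ α : ℝ, α = 1 / (2 * R) := ⟨_, rfl⟩
  obtain ⟨β, hβ⟩ : ∃ β : ℝ, β = 2 * l := ⟨_, rfl⟩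
  have hα0 : 0 < α := by rw [hα]; positivity
  have hα1 : α ≤ 1 / 2 := by
    rw [hα]
    exact one_div_le_one_div_of_le (by norm_num) (by linarith)
  have hβ0 : 0 < β := by rw [hβ]; positivity
  have hαβ : α ≤ β := by rw [hβ]; linarith
  have hα2 : α ^ 2 = 1 / (4 * (R : ℝ) ^ 2) := by
    rw [hα, div_pow, mul_pow]
    norm_num
  have hcond : (2 * φ) ^ 2 * β ^ 2 * (G + 1) ≤ α ^ 2 / 2 := by
    rw [hα2, hβ, hφ]
    have e : (2 * (1 / (12 * (R : ℝ) * l * (G + 1)))) ^ 2 * (2 * l) ^ 2 * (G + 1) =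
        1 / (9 * (R : ℝ) ^ 2 * (G + 1)) := by
      field_simp
      ring
    have e2 : 1 / (4 * (R : ℝ) ^ 2) / 2 = 1 / (8 * (R : ℝ) ^ 2) := by
      field_simp
      ring
    rw [e, e2]
    refine one_div_le_one_div_of_le (by positivity) ?_
    have h1 : 0 < (R : ℝ) ^ 2 := by positivity
    nlinarith
  obtain ⟨κ, hκ0, hκ1, hst⟩ := hSTEP R J hJ ε p α β G φ δ M K' hp hα0 hαβ hG1 hφ0 hφ1 hδ0 hδ1
    hcond hM1 hM2 hK2
  obtain ⟨a₀, ha₀⟩ : ∃ a₀ : ℝ, a₀ = 1 / (2 * (R : ℝ) ^ 2) := ⟨_, rfl⟩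
  have ha₀pos : 0 < a₀ := by rw [ha₀]; positivity
  have ha₀α : 2 * α ^ 2 = a₀ := by
    rw [hα2, ha₀]
    field_simp
    norm_num
  have ha₀le : a₀ ≤ 1 / 2 := by
    rw [ha₀]
    refine one_div_le_one_div_of_le (by norm_num) ?_
    have : (1 : ℝ) ≤ (R : ℝ) ^ 2 := one_le_pow₀ hR1
    linarith
  have hβ2 : β ^ 2 = 4 * l ^ 2 := by rw [hβ]; ring
  have hl2 : 1 ≤ l ^ 2 := one_le_pow₀ hl
  -- the number of steps
  have hex : ∃ n : ℕ, l ^ 2 ≤ a₀ * (1 + κ / 2) ^ n := by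
    obtain ⟨n, hn⟩ := pow_unbounded_of_one_lt (l ^ 2 / a₀) (show 1 < 1 + κ / 2 by linarith)
    refine ⟨n, ?_⟩
    rw [div_lt_iff₀ ha₀pos] at hn
    linarith
  classical
  obtain ⟨n, hn⟩ : ∃ n, n = Nat.find hex := ⟨_, rfl⟩
  have hn1 : l ^ 2 ≤ a₀ * (1 + κ / 2) ^ n := by rw [hn]; exact Nat.find_spec hex
  have hn2 : ∀ i < n, a₀ * (1 + κ / 2) ^ i < l ^ 2 := by
    intro i hi
    rw [hn] at hi
    exact not_le.mp (Nat.find_min hex hi)
  have hnκ : 4 * κ * n ≤ G := by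
    rcases Nat.eq_zero_or_pos n with h0 | h0
    · rw [h0, Nat.cast_zero, mul_zero]
      exact hG0.le
    · have h1 := hn2 (n - 1) (by omega)
      have h2 := one_add_mul_le_pow (show (-2 : ℝ) ≤ κ / 2 by linarith) (n - 1)
      have h3 : ((n - 1 : ℕ) : ℝ) = (n : ℝ) - 1 := by
        rw [Nat.cast_sub h0, Nat.cast_one]
      rw [h3] at h2
      have h4 : a₀ * (1 + ((n : ℝ) - 1) * (κ / 2)) < l ^ 2 :=
        lt_of_le_of_lt (mul_le_mul_of_nonneg_left h2 ha₀pos.le) h1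
      have h5 : 1 + ((n : ℝ) - 1) * (κ / 2) < 2 * (R : ℝ) ^ 2 * l ^ 2 := by
        have h6 : (2 * (R : ℝ) ^ 2) * a₀ = 1 := by
          rw [ha₀]
          field_simp
        have h7 := mul_lt_mul_of_pos_left h4 (show 0 < 2 * (R : ℝ) ^ 2 by positivity)
        rw [← mul_assoc, h6, one_mul] at h7
        exact h7
      rw [hG]
      nlinarith
  -- bounds for the parameters
  have hq0 : 0 ≤ 1 - 2 * (κ / G) := by
    have h1 : κ / G ≤ κ := div_le_self hκ0.le hG1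
    linarith
  have hq1 : 1 - 2 * (κ / G) ≤ 1 := by
    have h1 : 0 < κ / G := by positivity
    linarith
  have hα_le : ∀ j ≤ n, α ^ 2 ≤ a₀ * (1 - 2 * (κ / G)) ^ j := by
    intro j hj
    have h1 : (1 / 2 : ℝ) ≤ (1 - 2 * (κ / G)) ^ j := by
      have h2 := one_add_mul_le_pow (show (-2 : ℝ) ≤ -(2 * (κ / G)) by linarith) j
      have h3 : (j : ℝ) ≤ (n : ℝ) := by exact_mod_cast hj
      have h4 : (j : ℝ) * (2 * (κ / G)) ≤ 1 / 2 := by
        have h5 : (j : ℝ) * (2 * (κ / G)) = (2 * κ * j) / G := by ring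
        rw [h5, div_le_iff₀ hG0]
        have h6 : κ * j ≤ κ * n := mul_le_mul_of_nonneg_left h3 hκ0.le
        linarith
      have h7 : 1 + -(2 * (κ / G)) = 1 - 2 * (κ / G) := by ring
      rw [h7] at h2
      linarith
    have h8 := mul_le_mul_of_nonneg_left h1 ha₀pos.le
    linarith
  have ha_le : ∀ j : ℕ, a₀ * (1 - 2 * (κ / G)) ^ j ≤ β ^ 2 := by
    intro j
    have h1 : (1 - 2 * (κ / G)) ^ j ≤ 1 := pow_le_one₀ hq0 hq1
    have h2 := mul_le_mul_of_nonneg_left h1 ha₀pos.le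
    rw [hβ2]
    linarith
  have hb_ge : ∀ j : ℕ, α ^ 2 ≤ a₀ * (1 + κ / 2) ^ j := by
    intro j
    have h1 : (1 : ℝ) ≤ (1 + κ / 2) ^ j := one_le_pow₀ (by linarith)
    have h2 := mul_le_mul_of_nonneg_left h1 ha₀pos.le
    have h3 : 0 ≤ α ^ 2 := sq_nonneg α
    linarith
  have hb_le : ∀ j ≤ n, a₀ * (1 + κ / 2) ^ j ≤ β ^ 2 := by
    intro j hj
    rcases Nat.eq_zero_or_pos j with h0 | h0
    · rw [h0, pow_zero, mul_one, hβ2]
      linarith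
    · obtain ⟨i, rfl⟩ : ∃ i, j = i + 1 := ⟨j - 1, by omega⟩
      have h1 := hn2 i (by omega)
      rw [pow_succ, ← mul_assoc, hβ2]
      have h2 : 0 < a₀ * (1 + κ / 2) ^ i := by positivity
      nlinarith
  -- the induction
  have key : ∀ j ≤ n, ∃ w₀ : ℕ, ∀ w : ℕ, w₀ ≤ w →
      pB R J ε (Nq p (a₀ * (1 - 2 * (κ / G)) ^ j) (a₀ * (1 + κ / 2) ^ j)) w ≤
        ((w : ℝ) ^ 20)⁻¹ := by
    intro j
    induction j with
    | zero =>
      intro _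
      refine ⟨0, fun w _ => ?_⟩
      rw [pow_zero, pow_zero, mul_one, ha₀,
        pB_eq_zero fun h' => hBASE R J hJ hR h' p hp w 0]
      positivity
    | succ j ih =>
      intro hj
      have h1 := hst _ _ (hα_le j (by omega)) (ha_le j) (hb_ge j) (hb_le j (by omega))
        (ih (by omega)) hhard
      have e1 : a₀ * (1 - 2 * (κ / G)) ^ (j + 1) =
          a₀ * (1 - 2 * (κ / G)) ^ j * (1 - 2 * (κ / G)) := by ring
      have e2 : a₀ * (1 + κ / 2) ^ (j + 1) = a₀ * (1 + κ / 2) ^ j * (1 + κ / 2) := by ring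
      rw [e1, e2]
      exact h1
  obtain ⟨w₀, hw₀⟩ := key n le_rfl
  refine ⟨w₀, fun w hw => (pB_mono (fun x => ?_) w).trans (hw₀ w hw)⟩
  have h1 := (hNQ p _ _ α β hp hα0 hβ0 (hα_le n le_rfl) (ha_le n) (hb_ge n)
    (hb_le n le_rfl)).2.2 x
  refine le_trans ?_ h1
  have h2 : l ≤ Real.sqrt (a₀ * (1 + κ / 2) ^ n) := Real.le_sqrt_of_sq_le hn1
  have h3 : 0 ≤ nrm p := Real.sqrt_nonneg _
  exact div_le_div_of_nonneg_right (mul_le_mul_of_nonneg_right h2 (abs_nonneg _)) h3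

end Pool.Agent.H98.RFZ
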