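import Pool.Agent.H98.RFZ.Targets2b
import Pool.Agent.H11.RFZ.STR

/-!
# The structure theorem, with the condition `2 ≤ K'` (after helper11's row STR)
-/

set_option autoImplicit false

noncomputable section

open MeasureTheory ProbabilityTheory Filter Topology

namespace Pool.Agent.H98.RFZ

open Pool.Agent.H98.RFC Pool.Agent.H11.RFZ

theorem pf_STRk (hIND : B_INDk) (hSP : B_SP) (hEND : P_END) (hALL : T_ALL) : B_STRk := by
  classical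
  intro R J hJ ε hε hno
  rcases Nat.eq_zero_or_pos R with rfl | hR
  · exfalso
    have h1 := (hALL 0).2.1 J hJ 0 ε le_rfl hno 0
    simp only [Nat.cast_zero, mul_zero, zero_mul] at h1
    linarith
  obtain ⟨K₀, hK₀, hEND'⟩ := hEND R J hJ ε hε
  obtain ⟨φ, hφ0, hφ1, hφ⟩ := hIND R J hJ hR ε (2 * K₀) (by linarith)
  refine ⟨φ, hφ0, hφ1, ?_⟩
  intro M K' δ hM1 hM2 hK2 hδ0 hδ1
  by_contra hcon
  push Not at hcon
  -- hard directions
  have hhard : ∀ u₀ : ℕ, ∃ u : ℕ, u₀ ≤ u ∧ ∃ p : Site, InVM M p ∧ Hard R J ε p φ M K' δ u := by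
    intro u₀
    obtain ⟨u, hu, hv⟩ := hcon u₀
    refine ⟨u, hu, ?_⟩
    by_cases he : ∃ v₁ : Site, InVM M v₁ ∧ 1 - δ < pC R J ε u v₁ K'
    · obtain ⟨v₁, h1, h2⟩ := he
      exact ⟨v₁, h1, fun v h3 h4 => hv v₁ v h1 h3 h4 h2⟩
    · push Not at he
      exact ⟨((M : ℤ), (0 : ℤ)), inVM_M hM2, fun v h3 _ => he v h3⟩
  have hp : ∃ p : Site, InVM M p ∧ ∀ u₀ : ℕ, ∃ u : ℕ, u₀ ≤ u ∧ Hard R J ε p φ M K' δ u := by
    by_contra hp
    push Not at hp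
    have hp' : ∀ p : Site, ∃ u₀ : ℕ, InVM M p → ∀ u : ℕ, u₀ ≤ u → ¬ Hard R J ε p φ M K' δ u := by
      intro p
      by_cases h : InVM M p
      · obtain ⟨u₀, hu₀⟩ := hp p h
        exact ⟨u₀, fun _ => hu₀⟩
      · exact ⟨0, fun h' => absurd h' h⟩
    choose f hf using hp'
    obtain ⟨u, hu, p, h1, h2⟩ := hhard ((box (M + 2)).sup f)
    exact hf p h1 u ((Finset.le_sup (f := f) (inVM_box h1)).trans hu) h2
  obtain ⟨p, h1, h2⟩ := hp
  have hp0 : p ≠ 0 := inVM_ne_zero hM2 h1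
  have h3 := hφ p M K' δ hp0 hM1 hM2 hK2 hδ0 hδ1 h2
  obtain ⟨w₀, h4⟩ := hSP R J hJ ε p K₀ (2 * K₀) hp0 hK₀ le_rfl h3
  exact hno (hEND' p K₀ w₀ hp0 le_rfl h4)

end Pool.Agent.H98.RFZ
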