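import Pool.Agent.H98.RFC.Final
import Pool.Agent.H98.RFZ.Targets2b
import Pool.Agent.H98.RFZ.B3k
import Pool.Agent.H98.RFZ.STRk
import Pool.Agent.H98.RFZ.INDUk
import Pool.Agent.H80.RFZ.A1
import Pool.Agent.H13.RFZ.A2
import Pool.Agent.H20.RFZ.A3
import Pool.Agent.H94.RFZ.AA
import Pool.Agent.H67.RFZ.LB
import Pool.Agent.H80.RFZ.AP
import Pool.Agent.H94.RFZ.AREA
import Pool.Agent.H10.RFZ.B1
import Pool.Agent.H20.RFZ.B2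
import Pool.Agent.H68.RFZ.BASE
import Pool.Agent.H79.RFZ.BMEA
import Pool.Agent.H65.RFZ.CM
import Pool.Agent.H11.RFZ.CMEA
import Pool.Agent.H11.RFZ.CUT
import Pool.Agent.H34.RFZ.DM
import Pool.Agent.H32.RFZ.END
import Pool.Agent.H65.RFZ.GA
import Pool.Agent.H65.RFZ.GP
import Pool.Agent.H65.RFZ.IND
import Pool.Agent.H13.RFZ.INF
import Pool.Agent.H34.RFZ.LAT
import Pool.Agent.H65.RFZ.LOB
import Pool.Agent.H67.RFZ.Mag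
import Pool.Agent.H1.RFZ.MAIN
import Pool.Agent.H33.RFZ.MB
import Pool.Agent.H68.RFZ.MON
import Pool.Agent.H32.RFZ.NQ
import Pool.Agent.H68.RFZ.PAR
import Pool.Agent.H79.RFZ.PCUT
import Pool.Agent.H1.RFZ.RCT
import Pool.Agent.H32.RFZ.REC
import Pool.Agent.H49.RFZ.RES
import Pool.Agent.H11.RFZ.SH
import Pool.Agent.H80.RFZ.SPP
import Pool.Agent.H1.RFZ.TEN
import Pool.Agent.H67.RFZ.TLB
import Pool.Agent.H54.RFZ.TRA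

/-! # Assembly of the board `rfz_modules`, parts 0, 1, 2 -/

set_option autoImplicit false

namespace Pool.Agent.H98.RFZ

open Pool.Agent.H98.RFC

theorem f_SUB : T_SUB := Pool.Agent.H65.RFC.pf_SUB

theorem f_TDM : T_DM := Pool.Agent.H19.RFC.pf_DM

theorem f_TRG : T_TRG := Pool.Agent.H30.RFC.pf_TRG

theorem f_UNQ : T_UNQ := Pool.Agent.H65.RFC.pf_UNQ

theorem f_LAT : Z_LAT := Pool.Agent.H34.RFZ.pf_LAT f_SUB

theorem f_MB : Z_MB := Pool.Agent.H33.RFZ.pf_MB f_SUB f_LAT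

theorem f_RES : Z_RES := Pool.Agent.H49.RFZ.pf_RES f_TDM f_LAT

theorem f_DM : Z_DM := Pool.Agent.H34.RFZ.pf_DM f_MB f_RES

theorem f_INF : Z_INF := Pool.Agent.H13.RFZ.pf_INF f_LAT f_MB

theorem f_LOB : Z_LOB := Pool.Agent.H65.RFZ.pf_LOB

theorem f_SH : Z_SH := Pool.Agent.H11.RFZ.pf_SH f_RES f_LOB

theorem f_CUT : Z_CUT := Pool.Agent.H11.RFZ.pf_CUT f_TDM f_LAT f_MB

theorem f_AP : Z_AP := Pool.Agent.H80.RFZ.pf_AP f_SUB f_LAT f_MB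

theorem f_TEN : Z_TEN := Pool.Agent.H1.RFZ.pf_TEN f_SUB

theorem f_MEA : Z_MEA := Pool.Agent.H67.RFZ.pf_MEA

theorem f_LOC : Z_LOC := Pool.Agent.H67.RFZ.pf_LOC

theorem f_TRA : Z_TRA := Pool.Agent.H54.RFZ.pf_TRA

theorem f_CM : Z_CM := Pool.Agent.H65.RFZ.CM.pf_CM

theorem f_GA : Z_GA := Pool.Agent.H65.RFZ.GA.pf_GA f_CM

theorem f_GP : Z_GP := Pool.Agent.H65.RFZ.GP.pf_GP f_CM

theorem f_MAG : Z_MAG := Pool.Agent.H67.RFZ.pf_MAG f_UNQ f_INF f_MEA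

theorem f_IND : Z_IND := Pool.Agent.H65.RFZ.pf_IND

theorem f_RCT : P_RCT := Pool.Agent.H1.RFZ.pf_RCT

theorem f_AREA : P_AREA := Pool.Agent.H94.RFZ.pf_AREA

theorem f_LB : P_LB := Pool.Agent.H67.RFZ.pf_LB f_DM f_TRA f_MEA f_TRG f_RCT

theorem f_ANN : P_ANN := Pool.Agent.H67.RFZ.pf_ANN f_DM f_TRA f_MEA f_TRG f_RCT

theorem f_TLB : P_TLB := Pool.Agent.H67.RFZ.pf_TLB f_AP f_GA f_MEA f_TEN f_AREA f_LB

theorem f_PCUT : P_CUT := Pool.Agent.H79.RFZ.pf_PCUT f_CUT f_RCT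

theorem f_MAIN : P_MAIN := Pool.Agent.H1.RFZ.pf_MAIN f_TLB f_PCUT f_ANN f_AREA f_RCT f_CUT
  f_TEN f_MEA

theorem f_MON : P_MON := Pool.Agent.H68.RFZ.pf_MON f_DM f_MAG f_MEA f_RCT

theorem f_REC : P_REC := Pool.Agent.H32.RFZ.pf_REC

theorem f_END : P_END := Pool.Agent.H32.RFZ.pf_END f_MAIN f_MON f_REC pf_all

theorem f_NQ : B_NQ := Pool.Agent.H32.RFZ.pf_NQ

theorem f_BMEA : B_MEA := Pool.Agent.H79.RFZ.pf_BMEA f_MEA f_LOC f_TRA f_TRG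

theorem f_CMEA : C_MEA := Pool.Agent.H11.RFZ.pf_CMEA f_MEA f_LOC f_TRA f_TRG

theorem f_BASE : B_BASE := Pool.Agent.H68.RFZ.pf_BASE f_NQ

theorem f_A1 : B_A1 := Pool.Agent.H80.RFZ.pf_A1 f_DM

theorem f_A2 : B_A2 := Pool.Agent.H13.RFZ.pf_A2 f_A1 f_BMEA f_IND

theorem f_AA : B_A := Pool.Agent.H94.RFZ.pf_AA f_A2 Pool.Agent.H20.RFZ.pf_A3

theorem f_B1 : B_B1 := Pool.Agent.H10.RFZ.pf_B1 f_DM f_NQ

theorem f_B3k : B_B3k := pf_B3k f_B1 (Pool.Agent.H20.RFZ.pf_B2k f_DM) f_BMEA f_CMEA f_IND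

theorem f_PAR : B_PAR := Pool.Agent.H68.RFZ.pf_PAR

theorem f_SP : B_SP := Pool.Agent.H80.RFZ.pf_SP f_DM f_BMEA f_RCT

end Pool.Agent.H98.RFZ
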